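import Pool.Agent.helper23.HE.Defs

/-! H-convex functions are locally bounded above. -/

namespace Pool.Agent.helper23.HE

open Set Filter Topology

variable {n : ℕ}

lemma dp_add (a b c : Fin n → ℝ) : dotProduct (a + b) c = dotProduct a c + dotProduct b c :=
  add_dotProduct _ _ _

lemma dp_add' (a b c : Fin n → ℝ) : dotProduct a (b + c) = dotProduct a b + dotProduct a c :=
  dotProduct_add _ _ _

lemma hmul_assoc (a b c : Heis n) : hmul (hmul a b) c = hmul a (hmul b c) := by
  simp only [hmul]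
  ext
  · simp [add_assoc]
  · simp [add_assoc]
  · simp only [dp_add, dp_add']
    ring

/-- the inverse -/
def hinv (a : Heis n) : Heis n := (-a.1, -a.2.1, -a.2.2)

lemma hinv_mul (a b : Heis n) : hmul (hinv a) (hmul a b) = b := by
  simp only [hmul, hinv]
  ext
  · simp
  · simp
  · simp only [dp_add, dp_add', neg_dotProduct, dotProduct_neg]
    ring

lemma mul_hinv (a b : Heis n) : hmul a (hmul (hinv a) b) = b := by
  simp only [hmul, hinv]
  ext
  · simp
  · simp
  · simp only [dp_add, dp_add', neg_dotProduct, dotProduct_neg]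
    ring

lemma hinv_self (a : Heis n) : hmul (hinv a) a = 0 := by
  simp only [hmul, hinv]
  ext
  · simp
  · simp
  · simp only [neg_dotProduct, dotProduct_neg, Prod.snd_zero]
    rw [dotProduct_comm a.1 a.2.1, dotProduct_comm a.2.1 a.1]
    ring

@[simp] lemma mul_zero' (a : Heis n) : hmul a 0 = a := by
  simp only [hmul]; ext <;> simp

lemma mul_hinv_self (a : Heis n) : hmul a (hinv a) = 0 := by
  have := mul_hinv a 0
  rwa [mul_zero'] at this

lemma hmul_cont {X : Type*} [TopologicalSpace X] {f g : X → Heis n} (hf : Continuous f)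
    (hg : Continuous g) : Continuous (fun x => hmul (f x) (g x)) := by
  have hf1 := hf.fst
  have hf2 := hf.snd.fst
  have hf3 := hf.snd.snd
  have hg1 := hg.fst
  have hg2 := hg.snd.fst
  have hg3 := hg.snd.snd
  unfold hmul
  refine (hf1.add hg1).prodMk ((hf2.add hg2).prodMk ?_)
  exact (hf3.add hg3).add (continuous_const.mul ((hg1.dotProduct hf2).sub (hf1.dotProduct hg2)))

lemma hexp_cont {X : Type*} [TopologicalSpace X] {f : X → Layer n} (hf : Continuous f) :
    Continuous (fun x => hexp (f x)) := by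
  unfold hexp
  exact hf.fst.prodMk (hf.snd.prodMk continuous_const)

lemma HConvex.left {φ : Heis n → ℝ} (h : HConvex φ) (g : Heis n) :
    HConvex (fun ξ => φ (hmul g ξ)) := by
  intro ξ v
  have := h (hmul g ξ) v
  simpa only [hmul_assoc] using this

/-- the point of parameter `τ` -/
lemma line_pt (x y a b : Fin n → ℝ) (t τ : ℝ) : hmul (x, y, t) (hexp (τ • (a, b))) =
    (x + τ • a, y + τ • b, t + 2 * τ * (dotProduct a y - dotProduct x b)) := by
  simp only [hmul, hexp]
  ext
  · simp
  · simp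
  · simp only [Prod.smul_fst, Prod.smul_snd, smul_dotProduct, dotProduct_smul, smul_eq_mul]
    ring

/-- convexity in coordinates -/
lemma HConvex.co {φ : Heis n → ℝ} (h : HConvex φ) (x y a b : Fin n → ℝ) (t : ℝ) :
    ConvexOn ℝ univ (fun τ : ℝ => φ (x + τ • a, y + τ • b,
      t + 2 * τ * (dotProduct a y - dotProduct x b))) := by
  have := h (x, y, t) (a, b)
  simpa only [line_pt] using this

/-- φ is convex on the first Lagrangian plane. -/
lemma conv_L1 {φ : Heis n → ℝ} (h : HConvex φ) :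
    ConvexOn ℝ univ (fun x : Fin n → ℝ => φ (x, 0, 0)) := by
  refine ⟨convex_univ, ?_⟩
  intro x _ y _ a b ha hb hab
  have := (h.co x 0 (y - x) 0 0).2 (mem_univ (0:ℝ)) (mem_univ (1:ℝ)) ha hb hab
  simp only [smul_eq_mul, mul_zero, zero_add, mul_one, dotProduct_zero, sub_zero] at this
  simp only [smul_zero, zero_smul, one_smul, add_zero] at this
  have e1 : x + (y - x) = y := by abel
  have e2 : x + b • (y - x) = a • x + b • y := by
    have : a = 1 - b := by linarith
    rw [this, smul_sub, sub_smul, one_smul]; abel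
  rw [e1, e2] at this
  simpa using this

/-- φ is convex on the second Lagrangian plane. -/
lemma conv_L2 {φ : Heis n → ℝ} (h : HConvex φ) :
    ConvexOn ℝ univ (fun y : Fin n → ℝ => φ (0, y, 1)) := by
  refine ⟨convex_univ, ?_⟩
  intro x _ y _ a b ha hb hab
  have := (h.co 0 x 0 (y - x) 1).2 (mem_univ (0:ℝ)) (mem_univ (1:ℝ)) ha hb hab
  simp only [smul_eq_mul, mul_zero, zero_add, mul_one, zero_dotProduct, sub_zero] at this
  simp only [smul_zero, zero_smul, one_smul, add_zero] at this
  have e1 : x + (y - x) = y := by abel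
  have e2 : x + b • (y - x) = a • x + b • y := by
    have : a = 1 - b := by linarith
    rw [this, smul_sub, sub_smul, one_smul]; abel
  rw [e1, e2] at this
  simpa using this

lemma conv_bdd {F : (Fin n → ℝ) → ℝ} (h : ConvexOn ℝ univ F) : ∃ M : ℝ, ∀ x, ‖x‖ ≤ 4 → F x ≤ M := by
  have hc : ContinuousOn F univ := h.continuousOn isOpen_univ
  obtain ⟨x0, _, hx0⟩ := (isCompact_closedBall (0 : Fin n → ℝ) 4).exists_isMaxOn
    ⟨0, by simp⟩ (hc.mono (subset_univ _))
  exact ⟨F x0, fun x hx => hx0 (by simpa using hx)⟩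

/-- bound on the hypersurface of transversals -/
lemma surf_bdd {φ : Heis n → ℝ} (h : HConvex φ) : ∃ M : ℝ, ∀ (x y : Fin n → ℝ) (T : ℝ),
    1 / 4 ≤ T → T ≤ 3 / 4 → ‖x‖ ≤ 1 → ‖y‖ ≤ 1 → dotProduct x y = -(T * (1 - T) / 2) →
    φ (x, y, T) ≤ M := by
  obtain ⟨M1, h1⟩ := conv_bdd (conv_L1 h)
  obtain ⟨M2, h2⟩ := conv_bdd (conv_L2 h)
  refine ⟨max M1 M2, ?_⟩
  intro x y T hT1 hT2 hx hy hxy
  have hT0 : 0 < T := by linarith
  have hT3 : 0 < 1 - T := by linarith
  set X := (1 - T)⁻¹ • x with hX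
  set Y := T⁻¹ • y with hY
  have hXn : ‖X‖ ≤ 4 := by
    rw [hX, norm_smul, Real.norm_of_nonneg (by positivity)]
    have : (1 - T)⁻¹ ≤ 4 := by
      rw [inv_le_comm₀ hT3 (by norm_num)]; linarith
    nlinarith [norm_nonneg x]
  have hYn : ‖Y‖ ≤ 4 := by
    rw [hY, norm_smul, Real.norm_of_nonneg (by positivity)]
    have : T⁻¹ ≤ 4 := by
      rw [inv_le_comm₀ hT0 (by norm_num)]; linarith
    nlinarith [norm_nonneg y]
  have hXY : dotProduct X Y = -(1 / 2) := by
    rw [hX, hY, smul_dotProduct, dotProduct_smul, hxy, smul_eq_mul, smul_eq_mul]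
    field_simp
  have := (h.co X 0 (-X) Y 0).2 (mem_univ (0:ℝ)) (mem_univ (1:ℝ)) hT3.le hT0.le (by ring)
  simp only [smul_eq_mul, mul_zero, zero_add, mul_one, dotProduct_zero, zero_sub, hXY,
    zero_smul, one_smul, add_zero, add_neg_cancel, zero_mul] at this
  have e1 : X + T • -X = x := by
    rw [hX, smul_neg, smul_smul]
    have : (1 - T)⁻¹ • x + -((T * (1 - T)⁻¹) • x) = ((1 - T)⁻¹ - T * (1 - T)⁻¹) • x := by
      rw [sub_smul]; abel
    rw [this]
    have : (1 - T)⁻¹ - T * (1 - T)⁻¹ = 1 := by field_simp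
    rw [this, one_smul]
  have e2 : T • Y = y := by
    rw [hY, smul_smul, mul_inv_cancel₀ hT0.ne', one_smul]
  have e3 : 2 * T * - -(1 / 2 : ℝ) = T := by ring
  have e4 : 2 * - -(1 / 2 : ℝ) = 1 := by norm_num
  rw [e1, e2, e3, e4] at this
  have b1 := (h1 X hXn).trans (le_max_left M1 M2)
  have b2 := (h2 Y hYn).trans (le_max_right M1 M2)
  nlinarith

end Pool.Agent.helper23.HE
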