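import Pool.Agent.helper23.HE.Bdd

/-! H-convex functions are locally bounded above. -/

namespace Pool.Agent.helper23.HE

open Set Filter Topology

variable {n : ℕ}

/-- the defining function of the hypersurface along a line -/
noncomputable def gfun (i : Fin n) (ζ : Heis n) (τ : ℝ) : ℝ :=
  dotProduct (ζ.1 + τ • Pi.single i (1:ℝ)) (ζ.2.1 - τ • Pi.single i (1:ℝ)) +
    (ζ.2.2 + 2 * τ * (ζ.2.1 i + ζ.1 i)) * (1 - (ζ.2.2 + 2 * τ * (ζ.2.1 i + ζ.1 i))) / 2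

lemma gfun_cont (i : Fin n) (ζ : Heis n) : Continuous (gfun i ζ) := by
  unfold gfun
  simp only [dotProduct, Pi.add_apply, Pi.sub_apply, Pi.smul_apply, smul_eq_mul]
  fun_prop

lemma gfun_cont' (i : Fin n) (τ : ℝ) : Continuous (fun ζ : Heis n => gfun i ζ τ) := by
  unfold gfun
  simp only [dotProduct, Pi.add_apply, Pi.sub_apply, Pi.smul_apply, smul_eq_mul]
  fun_prop

lemma gfun_base (i : Fin n) (τ : ℝ) : gfun i ((0, 0, 1 / 2) : Heis n) τ = 1 / 8 - τ ^ 2 := by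
  unfold gfun
  simp only [zero_add, zero_sub, dotProduct_neg, smul_dotProduct, dotProduct_smul,
    single_dotProduct, Pi.single_eq_same, smul_eq_mul, Pi.zero_apply, add_zero, mul_zero]
  ring

lemma norm_single_one (i : Fin n) : ‖(Pi.single i (1:ℝ) : Fin n → ℝ)‖ = 1 := by
  rw [Pi.norm_single]; simp

lemma bdd_base {φ : Heis n → ℝ} (h : HConvex φ) (i : Fin n) :
    ∃ M : ℝ, ∀ᶠ ζ in 𝓝 ((0, 0, 1 / 2) : Heis n), φ ζ ≤ M := by
  obtain ⟨M, hM⟩ := surf_bdd h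
  refine ⟨M, ?_⟩
  have c0 := (gfun_cont' i 0).tendsto ((0, 0, 1 / 2) : Heis n)
  have c1 := (gfun_cont' i (1 / 2)).tendsto ((0, 0, 1 / 2) : Heis n)
  have c2 := (gfun_cont' i (-(1 / 2))).tendsto ((0, 0, 1 / 2) : Heis n)
  rw [gfun_base] at c0 c1 c2
  have d1 : Tendsto (fun ζ : Heis n => ‖ζ.1‖) (𝓝 ((0, 0, 1 / 2) : Heis n)) (𝓝 0) := by
    have : Continuous (fun ζ : Heis n => ‖ζ.1‖) := by fun_prop
    simpa using this.tendsto ((0, 0, 1 / 2) : Heis n)
  have d2 : Tendsto (fun ζ : Heis n => ‖ζ.2.1‖) (𝓝 ((0, 0, 1 / 2) : Heis n)) (𝓝 0) := by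
    have : Continuous (fun ζ : Heis n => ‖ζ.2.1‖) := by fun_prop
    simpa using this.tendsto ((0, 0, 1 / 2) : Heis n)
  have d3 : Tendsto (fun ζ : Heis n => ζ.2.2) (𝓝 ((0, 0, 1 / 2) : Heis n)) (𝓝 (1 / 2)) := by
    have : Continuous (fun ζ : Heis n => ζ.2.2) := by fun_prop
    simpa using this.tendsto ((0, 0, 1 / 2) : Heis n)
  filter_upwards [c0.eventually_const_lt (show (0:ℝ) < 1 / 8 - 0 ^ 2 by norm_num),
    c1.eventually_lt_const (show (1 / 8 - (1 / 2) ^ 2 : ℝ) < 0 by norm_num),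
    c2.eventually_lt_const (show (1 / 8 - (-(1 / 2)) ^ 2 : ℝ) < 0 by norm_num),
    d1.eventually_lt_const (show (0:ℝ) < 1 / 16 by norm_num),
    d2.eventually_lt_const (show (0:ℝ) < 1 / 16 by norm_num),
    d3.eventually_lt_const (show (1 / 2 : ℝ) < 5 / 8 by norm_num),
    d3.eventually_const_lt (show (3 / 8 : ℝ) < 1 / 2 by norm_num)] with ζ g0 g1 g2 n1 n2 t1 t2
  obtain ⟨x, y, t⟩ := ζ
  simp only at n1 n2 t1 t2
  have hx : |x i| ≤ 1 / 16 := (norm_le_pi_norm x i).trans n1.le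
  have hy : |y i| ≤ 1 / 16 := (norm_le_pi_norm y i).trans n2.le
  rw [abs_le] at hx hy
  have key : ∀ τ : ℝ, -(1 / 2) ≤ τ → τ ≤ 1 / 2 → gfun i (x, y, t) τ = 0 →
      φ (x + τ • Pi.single i (1:ℝ), y + τ • -Pi.single i (1:ℝ), t + 2 * τ * (y i + x i)) ≤ M := by
    intro τ hτ1 hτ2 hg
    have hτ : |τ| ≤ 1 / 2 := abs_le.2 ⟨hτ1, hτ2⟩
    have hb : |2 * τ * (y i + x i)| ≤ 1 / 8 := by
      rw [abs_mul, abs_mul, abs_two]
      have : |y i + x i| ≤ 1 / 8 := by rw [abs_le]; constructor <;> linarith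
      nlinarith [abs_nonneg τ, abs_nonneg (y i + x i)]
    rw [abs_le] at hb
    apply hM
    · linarith
    · linarith
    · calc ‖x + τ • Pi.single i (1:ℝ)‖ ≤ ‖x‖ + ‖τ • Pi.single i (1:ℝ)‖ := norm_add_le _ _
        _ ≤ 1 := by
          rw [norm_smul, norm_single_one, Real.norm_eq_abs]; linarith
    · calc ‖y + τ • -Pi.single i (1:ℝ)‖ ≤ ‖y‖ + ‖τ • -Pi.single i (1:ℝ)‖ := norm_add_le _ _
        _ ≤ 1 := by
          rw [norm_smul, norm_neg, norm_single_one, Real.norm_eq_abs]; linarith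
    · unfold gfun at hg
      simp only at hg
      rw [smul_neg, ← sub_eq_add_neg]
      linarith
  have hcont := gfun_cont i (x, y, t)
  obtain ⟨τ1, ⟨h11, h12⟩, h13⟩ := intermediate_value_Icc' (show (0:ℝ) ≤ 1 / 2 by norm_num)
    hcont.continuousOn (show (0:ℝ) ∈ Icc (gfun i (x, y, t) (1 / 2)) (gfun i (x, y, t) 0) from
      ⟨g1.le, g0.le⟩)
  obtain ⟨τ2, ⟨h21, h22⟩, h23⟩ := intermediate_value_Icc (show (-(1 / 2):ℝ) ≤ 0 by norm_num)
    hcont.continuousOn (show (0:ℝ) ∈ Icc (gfun i (x, y, t) (-(1 / 2))) (gfun i (x, y, t) 0) from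
      ⟨g2.le, g0.le⟩)
  have k1 := key τ1 (by linarith) h12 h13
  have k2 := key τ2 h21 (by linarith) h23
  have hco := h.co x y (Pi.single i (1:ℝ)) (-Pi.single i (1:ℝ)) t
  have e : ∀ τ : ℝ, t + 2 * τ * (dotProduct (Pi.single i (1:ℝ)) y -
      dotProduct x (-Pi.single i (1:ℝ))) = t + 2 * τ * (y i + x i) := by
    intro τ
    rw [single_dotProduct, dotProduct_neg, dotProduct_single]; ring
  simp only [e] at hco
  have h0 : (0:ℝ) ∈ segment ℝ τ2 τ1 := by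
    rw [segment_eq_Icc (by linarith)]; exact ⟨h22, h11⟩
  have := hco.le_max_of_mem_segment (mem_univ _) (mem_univ _) h0
  simp only [zero_smul, add_zero, mul_zero, zero_mul] at this
  exact this.trans (max_le k2 k1)

/-- H-convex functions are locally bounded above -/
lemma loc_bdd {φ : Heis n → ℝ} (h : HConvex φ) (i : Fin n) (ζ : Heis n) :
    ∃ M : ℝ, ∀ᶠ ξ in 𝓝 ζ, φ ξ ≤ M := by
  set ζ0 : Heis n := (0, 0, 1 / 2) with hζ0
  set g := hmul ζ (hinv ζ0) with hg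
  obtain ⟨M, hM⟩ := bdd_base (h.left g) i
  refine ⟨M, ?_⟩
  have hc : Continuous (fun ξ => hmul (hinv g) ξ) := hmul_cont continuous_const continuous_id
  have h1 : hmul (hinv g) ζ = ζ0 := by
    have : ζ = hmul g ζ0 := by
      rw [hg, hmul_assoc, hinv_self, mul_zero']
    rw [this, hinv_mul]
  have ht := hc.tendsto ζ
  rw [h1] at ht
  have := ht.eventually hM
  filter_upwards [this] with ξ hξ
  rwa [mul_hinv] at hξ

end Pool.Agent.helper23.HE
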