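import Pool.Agent.helper23.HE.Slice2

/-! Shortening chains of related points. -/

namespace Pool.Agent.helper23.HE

open Sys

/-- a contact-type system: `a` and `b` are related iff `T (b - a) + W a b = 0` -/
structure Ct {K : ℝ} {V : Type*} [AddCommGroup V] [Module ℝ V] (S : Sys K V)
    (T : V →ₗ[ℝ] ℝ) (W : V →ₗ[ℝ] V →ₗ[ℝ] ℝ) : Prop where
  alt : ∀ x, W x x = 0
  rel : ∀ a b, S.R a b ↔ T (b - a) + W a b = 0

section

variable {K : ℝ} {V : Type*} [AddCommGroup V] [Module ℝ V] {S : Sys K V}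
    {T : V →ₗ[ℝ] ℝ} {W : V →ₗ[ℝ] V →ₗ[ℝ] ℝ}

lemma Ct.neg (h : Ct S T W) (x y : V) : W x y = - W y x := by
  have := h.alt (x + y)
  simp only [map_add, LinearMap.add_apply, h.alt] at this
  linarith

/-- the slice of a chain -/
def sl (S : Sys K V) (a0 a1 a2 a3 : V) : Sys K (ℝ × ℝ × ℝ) :=
  S.slice a1 (a1 - a0) (a2 - a1) (a3 - a2)

lemma sl_R (a0 a1 a2 a3 : V) (p q : ℝ × ℝ × ℝ) : (sl S a0 a1 a2 a3).R p q =
    S.R (a1 + p.1 • (a1 - a0) + p.2.1 • (a2 - a1) + p.2.2 • (a3 - a2))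
      (a1 + q.1 • (a1 - a0) + q.2.1 • (a2 - a1) + q.2.2 • (a3 - a2)) := rfl

lemma pl1 (a0 a1 a2 a3 : V) (x : ℝ) : a1 + x • (a1 - a0) + (0:ℝ) • (a2 - a1) +
    (0:ℝ) • (a3 - a2) = pt a0 a1 (1 + x) := by
  simp only [pt, add_smul, one_smul, zero_smul]; abel

lemma pl2 (a0 a1 a2 a3 : V) (z : ℝ) : a1 + (0:ℝ) • (a1 - a0) + (1:ℝ) • (a2 - a1) +
    z • (a3 - a2) = pt a2 a3 z := by
  simp only [pt, one_smul, zero_smul]; abel

lemma sl_R' (a0 a1 a2 a3 : V) (x z : ℝ) : (sl S a0 a1 a2 a3).R (x, 0, 0) (0, 1, z) ↔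
    S.R (pt a0 a1 (1 + x)) (pt a2 a3 z) := by
  rw [sl_R, ← pl1 a0 a1 a2 a3, ← pl2 a0 a1 a2 a3]

lemma sl_d' (a0 a1 a2 a3 : V) (x z : ℝ) : (sl S a0 a1 a2 a3).d (x, 0, 0) (0, 1, z) =
    S.d (pt a0 a1 (1 + x)) (pt a2 a3 z) := by
  rw [sl, slice_d, ← pl1 a0 a1 a2 a3, ← pl2 a0 a1 a2 a3]

lemma sl_d0 (a0 a1 a2 a3 : V) : (sl S a0 a1 a2 a3).d (-1, 0, 0) (0, 0, 0) = S.d a0 a1 := by
  rw [sl, slice_d]; simp

lemma sl_d1 (a0 a1 a2 a3 : V) : (sl S a0 a1 a2 a3).d (0, 0, 0) (0, 1, 0) = S.d a1 a2 := by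
  rw [sl, slice_d]; simp

lemma sl_d2 (a0 a1 a2 a3 : V) : (sl S a0 a1 a2 a3).d (0, 1, 0) (0, 1, 1) = S.d a2 a3 := by
  rw [sl, slice_d]; simp

lemma sl_rel (h : Ct S T W) {a0 a1 a2 a3 : V} (h1 : S.R a0 a1) (h2 : S.R a1 a2)
    (h3 : S.R a2 a3) : Rel (W (a1 - a0) (a2 - a1)) (W (a2 - a1) (a3 - a2))
      (W (a1 - a0) (a3 - a2)) (sl S a0 a1 a2 a3).R := by
  rw [h.rel] at h1 h2 h3
  have hu : T (a1 - a0) + W a1 (a1 - a0) = 0 := by
    have : W a1 (a1 - a0) = W a0 a1 := by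
      rw [map_sub, h.alt, h.neg a1 a0]; ring
    rw [this]; exact h1
  have hv : T (a2 - a1) + W a1 (a2 - a1) = 0 := by
    have : W a1 (a2 - a1) = W a1 a2 := by rw [map_sub, h.alt]; ring
    rw [this]; exact h2
  have hw : T (a3 - a2) + W a1 (a3 - a2) + W (a2 - a1) (a3 - a2) = 0 := by
    have : W a1 (a3 - a2) + W (a2 - a1) (a3 - a2) = W a2 a3 := by
      rw [← LinearMap.add_apply, ← map_add]
      have : a1 + (a2 - a1) = a2 := by abel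
      rw [this, map_sub, h.alt]; ring
    rw [add_assoc, this]; exact h3
  intro x y z x' y' z' hr
  rw [sl_R]
  generalize a1 - a0 = u at *
  generalize a2 - a1 = v at *
  generalize a3 - a2 = w at *
  rw [h.rel]
  have n1 := h.neg u a1
  have n2 := h.neg v a1
  have n3 := h.neg w a1
  have n4 := h.neg v u
  have n5 := h.neg w u
  have n6 := h.neg w v
  simp only [map_add, map_sub, map_smul, LinearMap.add_apply, LinearMap.smul_apply, smul_eq_mul,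
    h.alt]
  rw [n1, n2, n3, n4, n5, n6]
  linear_combination hr + (x' - x) * hu + (y' - y) * hv + (z' - z) * hw

end

/-- critical values of the three pairings -/
def Crit (A B E : ℝ) : Prop := E ≠ 0 ∧ |A + E| < 1 / 20 * |E| ∧ |B + E| < 1 / 20 * |E|

lemma lineEnds (K : ℝ) (hK : 1 ≤ K) (R : ℝ) : ∃ C : ℝ, 1 ≤ C ∧
    ∀ (V : Type) [AddCommGroup V] [Module ℝ V] (S : Sys K V) (a b : V) (s : ℝ), S.R a b →
    S.d a b ≤ s → 0 ≤ s → ∀ τ : ℝ, |τ| ≤ R → S.R a (pt a b τ) ∧ S.R (pt a b τ) b ∧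
      S.d a (pt a b τ) ≤ C * s ∧ S.d (pt a b τ) b ≤ C * s := by
  obtain ⟨C, hC, H⟩ := line K hK (max R 1)
  refine ⟨C, hC, ?_⟩
  intro V _ _ S a b s h hd hs τ hτ
  have hτ' : |τ| ≤ max R 1 := hτ.trans (le_max_left _ _)
  have h0 : |(0:ℝ)| ≤ max R 1 := by simp
  have h1 : |(1:ℝ)| ≤ max R 1 := by simp
  have r1 := S.R_pt h 0 τ
  have r2 := S.R_pt h τ 1
  have d1 := H V S a b h 0 τ h0 hτ'
  have d2 := H V S a b h τ 1 hτ' h1
  rw [pt_zero] at r1 d1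
  rw [pt_one] at r2 d2
  have : C * S.d a b ≤ C * s := mul_le_mul_of_nonneg_left hd (by linarith)
  exact ⟨r1, r2, d1.trans this, d2.trans this⟩

lemma outI (K : ℝ) (hK : 1 ≤ K) (R : ℝ) (hR2 : 2 ≤ R) : ∃ C : ℝ, 1 ≤ C ∧
    ∀ (V : Type) [AddCommGroup V] [Module ℝ V] (S : Sys K V) (T : V →ₗ[ℝ] ℝ)
    (W : V →ₗ[ℝ] V →ₗ[ℝ] ℝ), Ct S T W → ∀ a0 a1 a2 a3 : V, S.R a0 a1 → S.R a1 a2 → S.R a2 a3 →
    ∀ A B E : ℝ, A = W (a1 - a0) (a2 - a1) → B = W (a2 - a1) (a3 - a2) →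
    E = W (a1 - a0) (a3 - a2) →
    A ≠ 0 → B ≠ 0 → E ≠ 0 → |A| ≤ 2 * |E| → |B| ≤ 2 * |E| → ∀ s, 0 ≤ s →
    S.d a0 a1 ≤ s → S.d a1 a2 ≤ s → S.d a2 a3 ≤ s →
    ∀ a b, |a| ≤ R → |b| ≤ R → a * A + b * B + a * b * E = 0 →
    S.R (pt a0 a1 (1 - a)) (pt a2 a3 b) ∧
    S.d (pt a0 a1 (1 - a)) (pt a2 a3 b) ≤ C * s := by
  obtain ⟨C, hC, H⟩ := chainI K hK R hR2
  refine ⟨C, hC, ?_⟩
  intro V _ _ S T W hct a0 a1 a2 a3 r1 r2 r3 A B E eA eB eE hA hB hE hAE hBE s hs d1 d2 d3 a b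
    ha hb hab
  have hrel := sl_rel hct r1 r2 r3
  rw [← eA, ← eB, ← eE] at hrel
  have := H (sl S a0 a1 a2 a3) A B E hrel hA hB hE hAE hBE s hs (by rw [sl_d0]; exact d1)
    (by rw [sl_d1]; exact d2) (by rw [sl_d2]; exact d3) a b ha hb hab
  rw [sl_d', ← sub_eq_add_neg] at this
  refine ⟨?_, this⟩
  have h2 := hrel (-a) 0 0 0 1 b (by linear_combination (-1 : ℝ) * hab)
  rw [sl_R', ← sub_eq_add_neg] at h2
  exact h2

lemma outII (K : ℝ) (hK : 1 ≤ K) : ∃ C : ℝ, 1 ≤ C ∧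
    ∀ (V : Type) [AddCommGroup V] [Module ℝ V] (S : Sys K V) (T : V →ₗ[ℝ] ℝ)
    (W : V →ₗ[ℝ] V →ₗ[ℝ] ℝ), Ct S T W → ∀ a0 a1 a2 a3 : V, S.R a0 a1 → S.R a1 a2 → S.R a2 a3 →
    ∀ A B E : ℝ, A = W (a1 - a0) (a2 - a1) → B = W (a2 - a1) (a3 - a2) →
    E = W (a1 - a0) (a3 - a2) →
    A ≠ 0 → |B| ≤ |A| → 2 * |E| ≤ |A| → ∀ s, 0 ≤ s →
    S.d a0 a1 ≤ s → S.d a1 a2 ≤ s → S.d a2 a3 ≤ s →
    ∃ b, S.R a0 b ∧ S.R b a3 ∧ S.d a0 b ≤ C * s ∧ S.d b a3 ≤ C * s := by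
  obtain ⟨C, hC, H⟩ := chainII K hK
  obtain ⟨C1, hC1, H1⟩ := lineEnds K hK 3
  refine ⟨max C C1, le_max_of_le_left hC, ?_⟩
  intro V _ _ S T W hct a0 a1 a2 a3 r1 r2 r3 A B E eA eB eE hA hB hE s hs d1 d2 d3
  have hrel := sl_rel hct r1 r2 r3
  rw [← eA, ← eB, ← eE] at hrel
  have := H (sl S a0 a1 a2 a3) A B E hrel hA hB hE s hs (by rw [sl_d0]; exact d1)
    (by rw [sl_d1]; exact d2) (by rw [sl_d2]; exact d3)
  rw [sl_d', pt_one] at this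
  have hA' := abs_pos.2 hA
  have hAE : |A| / 2 ≤ |A + E| := by
    have : |A| ≤ |A + E| + |E| := by
      calc |A| = |(A + E) - E| := by ring_nf
        _ ≤ |A + E| + |E| := abs_sub _ _
    linarith
  have hAE0 : A + E ≠ 0 := by
    intro h0; rw [h0, abs_zero] at hAE; linarith
  have h3 : |1 + B / (A + E)| ≤ 3 := by
    calc |1 + B / (A + E)| ≤ |1| + |B / (A + E)| := abs_add_le _ _
      _ ≤ 1 + 2 := by
        rw [abs_one, abs_div]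
        have : |B| / |A + E| ≤ 2 := by
          rw [div_le_iff₀ (abs_pos.2 hAE0)]; linarith
        linarith
      _ = 3 := by norm_num
  obtain ⟨x1, x2, x3, x4⟩ := H1 V S a0 a1 s r1 d1 hs _ h3
  have h2 := hrel (B / (A + E)) 0 0 0 1 1 (by field_simp; ring)
  rw [sl_R', pt_one] at h2
  refine ⟨_, x1, h2, x3.trans ?_, this.trans ?_⟩
  · exact mul_le_mul_of_nonneg_right (le_max_right _ _) hs
  · exact mul_le_mul_of_nonneg_right (le_max_left _ _) hs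

lemma Ct.iso {K : ℝ} {V : Type*} [AddCommGroup V] [Module ℝ V] {S : Sys K V}
    {T : V →ₗ[ℝ] ℝ} {W : V →ₗ[ℝ] V →ₗ[ℝ] ℝ} (h : Ct S T W) {a b c : V} (h1 : S.R a b)
    (h2 : S.R b c) (h3 : W (b - a) (c - b) = 0) : S.R a c := by
  rw [h.rel] at *
  simp only [map_sub, LinearMap.sub_apply, h.alt] at *
  linarith

lemma red (K : ℝ) (hK : 1 ≤ K) : ∃ C : ℝ, 1 ≤ C ∧
    ∀ (V : Type) [AddCommGroup V] [Module ℝ V] (S : Sys K V) (T : V →ₗ[ℝ] ℝ)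
    (W : V →ₗ[ℝ] V →ₗ[ℝ] ℝ), Ct S T W → ∀ a0 a1 a2 a3 : V, S.R a0 a1 → S.R a1 a2 → S.R a2 a3 →
    ∀ s, 0 ≤ s → S.d a0 a1 ≤ s → S.d a1 a2 ≤ s → S.d a2 a3 ≤ s →
    ¬ Crit (W (a1 - a0) (a2 - a1)) (W (a2 - a1) (a3 - a2)) (W (a1 - a0) (a3 - a2)) →
    ∃ b, S.R a0 b ∧ S.R b a3 ∧ S.d a0 b ≤ C * s ∧ S.d b a3 ≤ C * s := by
  obtain ⟨C1, hC1, iso1⟩ := Pool.Agent.helper23.HE.iso K hK
  obtain ⟨C2, hC2, out2⟩ := outII K hK
  obtain ⟨C3, hC3, out1⟩ := outI K hK 40 (by norm_num)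
  obtain ⟨C4, hC4, ends⟩ := lineEnds K hK 41
  refine ⟨2 * C1 + K * (C2 * K) + C2 + C3 + C4, ?_, ?_⟩
  · have : 0 ≤ K * (C2 * K) := by positivity
    linarith
  intro V _ _ S T W hct a0 a1 a2 a3 r1 r2 r3 s hs d1 d2 d3 hcr
  have hC1s : 0 ≤ C1 * s := by positivity
  have hC2s : 0 ≤ C2 * s := by positivity
  have hC3s : 0 ≤ C3 * s := by positivity
  have hC4s : 0 ≤ C4 * s := by positivity
  have hKs : 0 ≤ K * (C2 * K) * s := by positivity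
  have hs1 : s ≤ C4 * s := by nlinarith
  set C := 2 * C1 + K * (C2 * K) + C2 + C3 + C4 with hC
  have hexp : C * s = 2 * (C1 * s) + K * (C2 * K) * s + C2 * s + C3 * s + C4 * s := by
    rw [hC]; ring
  generalize eA : W (a1 - a0) (a2 - a1) = A at hcr
  generalize eB : W (a2 - a1) (a3 - a2) = B at hcr
  generalize eE : W (a1 - a0) (a3 - a2) = E at hcr
  by_cases hA : A = 0
  · rw [hA] at eA
    have r := hct.iso r1 r2 eA
    have := iso1 V S a0 a1 a2 r1 r2 r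
    refine ⟨a2, r, r3, ?_, ?_⟩
    · have : C1 * (S.d a0 a1 + S.d a1 a2) ≤ C1 * (s + s) :=
        mul_le_mul_of_nonneg_left (by linarith) (by linarith)
      linarith
    · linarith
  by_cases hB : B = 0
  · rw [hB] at eB
    have r := hct.iso r2 r3 eB
    have := iso1 V S a1 a2 a3 r2 r3 r
    refine ⟨a1, r1, r, ?_, ?_⟩
    · linarith
    · have : C1 * (S.d a1 a2 + S.d a2 a3) ≤ C1 * (s + s) :=
        mul_le_mul_of_nonneg_left (by linarith) (by linarith)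
      linarith
  by_cases h3 : |B| ≤ |A| ∧ 2 * |E| ≤ |A|
  · obtain ⟨b, q1, q2, q3, q4⟩ := out2 V S T W hct a0 a1 a2 a3 r1 r2 r3 A B E eA.symm eB.symm
      eE.symm hA h3.1 h3.2 s hs d1 d2 d3
    exact ⟨b, q1, q2, by linarith, by linarith⟩
  by_cases h4 : |A| ≤ |B| ∧ 2 * |E| ≤ |B|
  · have d1' : S.d a1 a0 ≤ K * s := (S.d_symm r1).trans (mul_le_mul_of_nonneg_left d1 (by linarith))
    have d2' : S.d a2 a1 ≤ K * s := (S.d_symm r2).trans (mul_le_mul_of_nonneg_left d2 (by linarith))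
    have d3' : S.d a3 a2 ≤ K * s := (S.d_symm r3).trans (mul_le_mul_of_nonneg_left d3 (by linarith))
    have e1 : -B = W (a2 - a3) (a1 - a2) := by
      rw [← eB, ← neg_sub a3 a2, ← neg_sub a2 a1, map_neg, map_neg, LinearMap.neg_apply, neg_neg,
        ← hct.neg]
    have e2 : -A = W (a1 - a2) (a0 - a1) := by
      rw [← eA, ← neg_sub a2 a1, ← neg_sub a1 a0, map_neg, map_neg, LinearMap.neg_apply, neg_neg,
        ← hct.neg]
    have e3 : -E = W (a2 - a3) (a0 - a1) := by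
      rw [← eE, ← neg_sub a3 a2, ← neg_sub a1 a0, map_neg, map_neg, LinearMap.neg_apply, neg_neg,
        ← hct.neg]
    obtain ⟨b, q1, q2, q3, q4⟩ := out2 V S T W hct a3 a2 a1 a0 (S.symm _ _ r3) (S.symm _ _ r2)
      (S.symm _ _ r1) (-B) (-A) (-E) e1 e2 e3 (by simpa using hB) (by simpa using h4.1)
      (by simpa using h4.2) (K * s) (by positivity) d3' d2' d1'
    refine ⟨b, S.symm _ _ q2, S.symm _ _ q1, ?_, ?_⟩
    · have := (S.d_symm q2).trans (mul_le_mul_of_nonneg_left q4 (by linarith : 0 ≤ K))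
      have e : K * (C2 * (K * s)) = K * (C2 * K) * s := by ring
      linarith
    · have := (S.d_symm q1).trans (mul_le_mul_of_nonneg_left q3 (by linarith : 0 ≤ K))
      have e : K * (C2 * (K * s)) = K * (C2 * K) * s := by ring
      linarith
  have h5 : |A| < 2 * |E| ∧ |B| < 2 * |E| := by
    rcases le_total |B| |A| with hab | hab
    · have : ¬ 2 * |E| ≤ |A| := fun h => h3 ⟨hab, h⟩
      push Not at this
      exact ⟨this, hab.trans_lt this⟩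
    · have : ¬ 2 * |E| ≤ |B| := fun h => h4 ⟨hab, h⟩
      push Not at this
      exact ⟨hab.trans_lt this, this⟩
  have hE0 : 0 < |E| := by
    have := abs_pos.2 hA; linarith [h5.1]
  have hE : E ≠ 0 := abs_pos.1 hE0
  by_cases h6 : 1 / 20 * |E| ≤ |B + E|
  · have hBE : 0 < |B + E| := lt_of_lt_of_le (by positivity) h6
    have hBE0 : B + E ≠ 0 := abs_pos.1 hBE
    have hb : |(-A / (B + E))| ≤ 40 := by
      rw [abs_div, abs_neg, div_le_iff₀ hBE]; linarith [h5.1]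
    obtain ⟨q1, q2⟩ := out1 V S T W hct a0 a1 a2 a3 r1 r2 r3 A B E eA.symm eB.symm eE.symm hA hB hE
      h5.1.le h5.2.le s hs d1 d2 d3 1 (-A / (B + E)) (by norm_num) hb (by field_simp; ring)
    rw [sub_self, pt_zero] at q1 q2
    obtain ⟨x1, x2, x3, x4⟩ := ends V S a2 a3 s r3 d3 hs (-A / (B + E)) (by linarith)
    exact ⟨_, q1, x2, by linarith, by linarith⟩
  by_cases h7 : 1 / 20 * |E| ≤ |A + E|
  · have hBE : 0 < |A + E| := lt_of_lt_of_le (by positivity) h7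
    have hBE0 : A + E ≠ 0 := abs_pos.1 hBE
    have hb : |(-B / (A + E))| ≤ 40 := by
      rw [abs_div, abs_neg, div_le_iff₀ hBE]; linarith [h5.2]
    obtain ⟨q1, q2⟩ := out1 V S T W hct a0 a1 a2 a3 r1 r2 r3 A B E eA.symm eB.symm eE.symm hA hB hE
      h5.1.le h5.2.le s hs d1 d2 d3 (-B / (A + E)) 1 hb (by norm_num) (by field_simp; ring)
    rw [pt_one] at q1 q2
    obtain ⟨x1, x2, x3, x4⟩ := ends V S a0 a1 s r1 d1 hs (1 - -B / (A + E)) (by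
      calc |1 - -B / (A + E)| ≤ |1| + |-B / (A + E)| := abs_sub _ _
        _ ≤ 41 := by rw [abs_one]; linarith)
    exact ⟨_, x1, q1, by linarith, by linarith⟩
  push Not at h6 h7
  exact absurd ⟨hE, h7, h6⟩ hcr

end Pool.Agent.helper23.HE
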