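import Mathlib

/-! Definitions: the Heisenberg group, H-convex functions, sections and engulfing. -/

namespace Pool.Agent.helper23.HE

variable {n : ℕ}

/-- The Heisenberg group `ℍⁿ = ℝⁿ × ℝⁿ × ℝ`, with points `(x, y, t)`. -/
abbrev Heis (n : ℕ) : Type := (Fin n → ℝ) × (Fin n → ℝ) × ℝ

/-- The first layer `V₁ = ℝⁿ × ℝⁿ = ℝ²ⁿ`. -/
abbrev Layer (n : ℕ) : Type := (Fin n → ℝ) × (Fin n → ℝ)

/-- The group law
`(x, y, t) ∘ (x', y', t') = (x + x', y + y', t + t' + 2 (⟨x', y⟩ - ⟨x, y'⟩))`. -/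
def hmul (ξ ξ' : Heis n) : Heis n :=
  (ξ.1 + ξ'.1, ξ.2.1 + ξ'.2.1,
    ξ.2.2 + ξ'.2.2 + 2 * (dotProduct ξ'.1 ξ.2.1 - dotProduct ξ.1 ξ'.2.1))

/-- `exp v = (a, b, 0)` for `v = (a, b)` in the first layer. -/
def hexp (v : Layer n) : Heis n := (v.1, v.2, 0)

/-- The Euclidean scalar product `p · v` on the first layer. -/
def hdot (p v : Layer n) : ℝ := dotProduct p.1 v.1 + dotProduct p.2 v.2

/-- `φ` is `H`-convex: convex on each horizontal line. -/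
def HConvex (φ : Heis n → ℝ) : Prop :=
  ∀ (ξ : Heis n) (v : Layer n), ConvexOn ℝ Set.univ (fun τ : ℝ => φ (hmul ξ (hexp (τ • v))))

/-- The `H`-subdifferential of `φ` at `ξ`. -/
def hsubdiff (φ : Heis n → ℝ) (ξ : Heis n) : Set (Layer n) :=
  {p | ∀ v : Layer n, φ ξ + hdot p v ≤ φ (hmul ξ (hexp v))}

/-- The `H`-section `S^H_φ(ξ₀, p, s)`. -/
def hsection (φ : Heis n → ℝ) (ξ₀ : Heis n) (p : Layer n) (s : ℝ) : Set (Heis n) :=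
  {ζ | ∃ v : Layer n, ζ = hmul ξ₀ (hexp v) ∧ φ (hmul ξ₀ (hexp v)) - φ ξ₀ - hdot p v < s}

/-- The full-dimensional section `𝒮_φ(ξ₀, p₀, s)`. -/
def fullSection (φ : Heis n → ℝ) (ξ₀ : Heis n) (p₀ : Layer n) (s : ℝ) : Set (Heis n) :=
  {ζ | ∃ ξ₁ ∈ hsection φ ξ₀ p₀ s, ∃ p₁ ∈ hsubdiff φ ξ₁, ∃ ξ₂ ∈ hsection φ ξ₁ p₁ s,
    ∃ p₂ ∈ hsubdiff φ ξ₂, ζ ∈ hsection φ ξ₂ p₂ s}

/-- The horizontal engulfing property `E(H, K)`. -/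
def EngulfH (φ : Heis n → ℝ) (K : ℝ) : Prop :=
  ∀ ξ : Heis n, ∀ p ∈ hsubdiff φ ξ, ∀ s > 0, ∀ ξ' ∈ hsection φ ξ p s, ∀ q ∈ hsubdiff φ ξ',
    ξ ∈ hsection φ ξ' q (K * s)

/-- The full-dimensional engulfing property `E(ℍⁿ, K)`. -/
def EngulfFull (φ : Heis n → ℝ) (K : ℝ) : Prop :=
  ∀ ξ : Heis n, ∀ p ∈ hsubdiff φ ξ, ∀ s > 0, ∀ ξ' ∈ fullSection φ ξ p s, ∀ q ∈ hsubdiff φ ξ',
    fullSection φ ξ p s ⊆ fullSection φ ξ' q (K * s)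

end Pool.Agent.helper23.HE
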