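import Pool.Agent.helper23.HE.Jensen

/-! The H-subdifferential of an H-convex function is nonempty everywhere. -/

namespace Pool.Agent.helper23.HE

open Set Filter Topology

variable {n : ℕ}

lemma functional_rep (g : Layer n →ₗ[ℝ] ℝ) : ∃ p : Layer n, ∀ v, hdot p v = g v := by
  refine ⟨(fun i => g (Pi.single i 1, 0), fun i => g (0, Pi.single i 1)), ?_⟩
  intro v
  have h1 : g (v.1, 0) = ∑ i, v.1 i * g (Pi.single i 1, 0) := by
    have := LinearMap.pi_apply_eq_sum_univ (g.comp (LinearMap.inl ℝ (Fin n → ℝ) (Fin n → ℝ))) v.1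
    simp only [LinearMap.comp_apply, LinearMap.inl_apply, smul_eq_mul] at this
    rw [this]
    refine Finset.sum_congr rfl fun i _ => ?_
    congr 3
    ext j
    simp [Pi.single_apply, eq_comm]
  have h2 : g (0, v.2) = ∑ i, v.2 i * g (0, Pi.single i 1) := by
    have := LinearMap.pi_apply_eq_sum_univ (g.comp (LinearMap.inr ℝ (Fin n → ℝ) (Fin n → ℝ))) v.2
    simp only [LinearMap.comp_apply, LinearMap.inr_apply, smul_eq_mul] at this
    rw [this]
    refine Finset.sum_congr rfl fun i _ => ?_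
    congr 3
    ext j
    simp [Pi.single_apply, eq_comm]
  have h3 : g v = g (v.1, 0) + g (0, v.2) := by
    rw [← map_add]; simp
  rw [h3, h1, h2]
  simp only [hdot, dotProduct]
  congr 1 <;> exact Finset.sum_congr rfl fun i _ => mul_comm _ _

lemma epi_open {φ : Heis n → ℝ} (h : HConvex φ) (i : Fin n) (ξ : Heis n) :
    IsOpen {q : Layer n × ℝ | φ (hmul ξ (hexp q.1)) - φ ξ < q.2} := by
  rw [isOpen_iff_mem_nhds]
  intro q hq
  rw [mem_ofPred_eq] at hq
  set ε := (q.2 - (φ (hmul ξ (hexp q.1)) - φ ξ)) / 2 with hε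
  have hε0 : 0 < ε := by rw [hε]; linarith
  have hc : Continuous (fun q : Layer n × ℝ => hmul ξ (hexp q.1)) :=
    hmul_cont continuous_const (hexp_cont continuous_fst)
  have h1 := (hc.tendsto q).eventually (usc h i (hmul ξ (hexp q.1)) ε hε0)
  have h2 : ∀ᶠ r : Layer n × ℝ in 𝓝 q, q.2 - ε < r.2 :=
    (continuous_snd.tendsto q).eventually_const_lt (by linarith)
  filter_upwards [h1, h2] with r h3 h4
  linarith

lemma epi_zero {φ : Heis n → ℝ} (h : HConvex φ) (i : Fin n) (ξ : Heis n) :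
    (0 : Layer n × ℝ) ∉ convexHull ℝ {q : Layer n × ℝ | φ (hmul ξ (hexp q.1)) - φ ξ < q.2} := by
  intro hmem
  rw [convexHull_eq] at hmem
  obtain ⟨ι, t, w, z, hw, hw1, hz, hc⟩ := hmem
  rw [Finset.centerMass_eq_of_sum_1 _ _ hw1] at hc
  have hc1 : ∑ j ∈ t, w j • (z j).1 = 0 := by
    have := congrArg Prod.fst hc
    rw [Prod.fst_sum] at this
    simpa using this
  have hc2 : ∑ j ∈ t, w j * (z j).2 = 0 := by
    have := congrArg Prod.snd hc
    rw [Prod.snd_sum] at this
    simpa using this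
  set L : List (ℝ × Layer n) := t.toList.map (fun j => (w j, (z j).1)) with hL
  have hL0 : ∀ p ∈ L, 0 ≤ p.1 := by
    intro p hp
    rw [hL, List.mem_map] at hp
    obtain ⟨j, hj, rfl⟩ := hp
    exact hw j (Finset.mem_toList.1 hj)
  have hX : Xs L = 0 := by
    rw [Xs, hL, List.map_map, Finset.sum_map_toList]
    exact hc1
  have hJ := jensen h i ξ L hL0 hX
  rw [hL, List.map_map, Finset.sum_map_toList] at hJ
  simp only [Function.comp_apply] at hJ
  have hsum : ∑ j ∈ t, w j * ((z j).2 - (φ (hmul ξ (hexp (z j).1)) - φ ξ)) ≤ 0 := by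
    have : ∑ j ∈ t, w j * ((z j).2 - (φ (hmul ξ (hexp (z j).1)) - φ ξ)) =
        ∑ j ∈ t, w j * (z j).2 - ∑ j ∈ t, w j * (φ (hmul ξ (hexp (z j).1)) - φ ξ) := by
      rw [← Finset.sum_sub_distrib]
      exact Finset.sum_congr rfl fun j _ => by ring
    rw [this, hc2]; linarith
  have hnn : ∀ j ∈ t, 0 ≤ w j * ((z j).2 - (φ (hmul ξ (hexp (z j).1)) - φ ξ)) := by
    intro j hj
    have := hz j hj
    rw [mem_ofPred_eq] at this
    exact mul_nonneg (hw j hj) (by linarith)
  have h0 := le_antisymm hsum (Finset.sum_nonneg hnn)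
  rw [Finset.sum_eq_zero_iff_of_nonneg hnn] at h0
  have hw0 : ∑ j ∈ t, w j = 0 := by
    apply Finset.sum_eq_zero
    intro j hj
    have h1 := h0 j hj
    have h2 := hz j hj
    rw [mem_ofPred_eq] at h2
    rcases mul_eq_zero.1 h1 with h3 | h3
    · exact h3
    · linarith
  rw [hw0] at hw1
  exact zero_ne_one hw1

/-- The H-subdifferential of an H-convex function is nonempty. -/
theorem hsubdiff_nonempty {φ : Heis n → ℝ} (h : HConvex φ) (i : Fin n) (ξ : Heis n) :
    (hsubdiff φ ξ).Nonempty := by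
  set C : Set (Layer n × ℝ) := {q : Layer n × ℝ | φ (hmul ξ (hexp q.1)) - φ ξ < q.2} with hC
  obtain ⟨f, hf⟩ := geometric_hahn_banach_point_open (convex_convexHull ℝ C)
    (epi_open h i ξ).convexHull (epi_zero h i ξ)
  rw [map_zero] at hf
  have hfC : ∀ v s, φ (hmul ξ (hexp v)) - φ ξ < s → 0 < f (v, s) := fun v s hs =>
    hf (v, s) (subset_convexHull ℝ C hs)
  have hsplit : ∀ v s, f (v, s) = f (v, 0) + s * f (0, 1) := by
    intro v s
    have : ((v, s) : Layer n × ℝ) = (v, 0) + s • ((0 : Layer n), (1 : ℝ)) := by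
      ext <;> simp
    rw [this, map_add, map_smul, smul_eq_mul]
  set c := f (0, 1) with hc
  have hc0 : 0 < c := by
    have := hfC 0 1 (by simp)
    exact this
  set g : Layer n →ₗ[ℝ] ℝ := (-c⁻¹) • (f.toLinearMap.comp (LinearMap.inl ℝ (Layer n) ℝ)) with hg
  obtain ⟨p, hp⟩ := functional_rep g
  refine ⟨p, ?_⟩
  intro v
  rw [hp]
  have hgv : g v = -c⁻¹ * f (v, 0) := by
    simp [hg]
  by_contra hcon
  push Not at hcon
  have h1 := hfC v (g v) (by linarith)
  rw [hsplit, hgv] at h1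
  have : f (v, 0) + -c⁻¹ * f (v, 0) * c = 0 := by
    field_simp; ring
  linarith

end Pool.Agent.helper23.HE
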