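import Pool.Agent.helper23.HE.Four
import Pool.Agent.helper23.HE.Subdiff

/-! Horizontal engulfing implies full engulfing. -/

namespace Pool.Agent.helper23.HE

open Set

variable {n : ℕ}

/-- vertical coordinate -/
def Tl (n : ℕ) : Heis n →ₗ[ℝ] ℝ := (LinearMap.snd ℝ (Fin n → ℝ) ℝ).comp
  (LinearMap.snd ℝ (Fin n → ℝ) ((Fin n → ℝ) × ℝ))

@[simp] lemma Tl_apply (a : Heis n) : Tl n a = a.2.2 := rfl

/-- twice the symplectic form -/
def Wl (n : ℕ) : Heis n →ₗ[ℝ] Heis n →ₗ[ℝ] ℝ := LinearMap.mk₂ ℝ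
  (fun a b => 2 * (dotProduct a.1 b.2.1 - dotProduct b.1 a.2.1))
  (by intro a b c; simp only [Prod.fst_add, Prod.snd_add, dp_add, dp_add']; ring)
  (by intro t a b; simp only [Prod.smul_fst, Prod.smul_snd, smul_dotProduct, dotProduct_smul,
        smul_eq_mul]; ring)
  (by intro a b c; simp only [Prod.fst_add, Prod.snd_add, dp_add, dp_add']; ring)
  (by intro t a b; simp only [Prod.smul_fst, Prod.smul_snd, smul_dotProduct, dotProduct_smul,
        smul_eq_mul]; ring)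

@[simp] lemma Wl_apply (a b : Heis n) :
    Wl n a b = 2 * (dotProduct a.1 b.2.1 - dotProduct b.1 a.2.1) := rfl

/-- horizontal projection of the difference -/
def dif (a b : Heis n) : Layer n := (b.1 - a.1, b.2.1 - a.2.1)

/-- horizontally related points -/
def Hr (a b : Heis n) : Prop := Tl n (b - a) + Wl n a b = 0

lemma Hr_iff (a b : Heis n) : Hr a b ↔ b = hmul a (hexp (dif a b)) := by
  obtain ⟨x, y, t⟩ := a
  obtain ⟨x', y', t'⟩ := b
  simp only [Hr, Tl_apply, Wl_apply, hmul, hexp, dif, Prod.mk_sub_mk, Prod.mk.injEq,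
    add_sub_cancel, true_and, add_zero, sub_dotProduct, dotProduct_sub]
  constructor
  · intro h; linarith
  · intro h; linarith

lemma Hr_exp (a : Heis n) (v : Layer n) : Hr a (hmul a (hexp v)) := by
  simp only [Hr, Tl_apply, Wl_apply, hmul, hexp, Prod.snd_sub, add_zero, dp_add, dp_add']
  ring

lemma dif_exp (a : Heis n) (v : Layer n) : dif a (hmul a (hexp v)) = v := by
  simp only [dif, hmul, hexp]
  ext <;> simp

/-- the gap of a slope -/
def del (φ : Heis n → ℝ) (p : Layer n) (a b : Heis n) : ℝ := φ b - φ a - hdot p (dif a b)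

lemma mem_hsection (φ : Heis n → ℝ) (a : Heis n) (p : Layer n) (s : ℝ) (ζ : Heis n) :
    ζ ∈ hsection φ a p s ↔ Hr a ζ ∧ del φ p a ζ < s := by
  constructor
  · rintro ⟨v, rfl, h⟩
    refine ⟨Hr_exp a v, ?_⟩
    rw [del, dif_exp]; exact h
  · rintro ⟨h1, h2⟩
    rw [Hr_iff] at h1
    refine ⟨dif a ζ, h1, ?_⟩
    rw [← h1]; exact h2

lemma Hr_self (a : Heis n) : Hr a a := by simp [Hr]

lemma Hr_symm {a b : Heis n} (h : Hr a b) : Hr b a := by
  simp only [Hr, Tl_apply, Wl_apply, Prod.snd_sub] at *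
  linarith

lemma del_nonneg {φ : Heis n → ℝ} {p : Layer n} {a b : Heis n} (hp : p ∈ hsubdiff φ a)
    (h : Hr a b) : 0 ≤ del φ p a b := by
  have := hp (dif a b)
  rw [← (Hr_iff a b).1 h] at this
  unfold del; linarith

lemma del_eng {φ : Heis n → ℝ} {K : ℝ} (hK : 0 < K) (hE : EngulfH φ K) {p q : Layer n}
    {a b : Heis n} (hp : p ∈ hsubdiff φ a) (hq : q ∈ hsubdiff φ b) (h : Hr a b) :
    del φ q b a ≤ K * del φ p a b := by
  apply le_of_forall_pos_lt_add
  intro ε hε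
  have h0 := del_nonneg hp h
  have h1 : b ∈ hsection φ a p (del φ p a b + ε / K) :=
    (mem_hsection _ _ _ _ _).2 ⟨h, by linarith [div_pos hε hK]⟩
  have h2 := hE a p hp _ (by positivity) b h1 q hq
  have h3 := ((mem_hsection _ _ _ _ _).1 h2).2
  have : K * (del φ p a b + ε / K) = K * del φ p a b + ε := by field_simp
  rwa [this] at h3

/-- the functional of a horizontal vector -/
def lin (p : Layer n) : Heis n →ₗ[ℝ] ℝ where
  toFun b := hdot p (b.1, b.2.1)
  map_add' a b := by simp only [hdot, Prod.fst_add, Prod.snd_add, dp_add']; ring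
  map_smul' t b := by
    simp only [hdot, Prod.smul_fst, Prod.smul_snd, dotProduct_smul, smul_eq_mul, RingHom.id_apply]
    ring

lemma lin_sub (p : Layer n) (a b : Heis n) : lin p (b - a) = hdot p (dif a b) := rfl

/-- the system of an H-convex function with a selection of subgradients -/
def sys {φ : Heis n → ℝ} {K : ℝ} (hK : 0 < K) (hE : EngulfH φ K) (sel : Heis n → Layer n)
    (hsel : ∀ a, sel a ∈ hsubdiff φ a) : Sys K (Heis n) where
  R := Hr
  refl := Hr_self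
  symm _ _ h := Hr_symm h
  lin a b c τ h1 h2 := by
    simp only [Hr, map_add, map_sub, map_smul, smul_eq_mul] at *
    linear_combination (1 - τ) * h1 + τ * h2
  f := φ
  l a := lin (sel a)
  nn a b h := by rw [lin_sub]; exact del_nonneg (hsel a) h
  eng a b h := by
    rw [lin_sub, lin_sub]; exact del_eng hK hE (hsel a) (hsel b) h

lemma sys_d {φ : Heis n → ℝ} {K : ℝ} (hK : 0 < K) (hE : EngulfH φ K) (sel : Heis n → Layer n)
    (hsel : ∀ a, sel a ∈ hsubdiff φ a) (a b : Heis n) :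
    (sys hK hE sel hsel).d a b = del φ (sel a) a b := rfl

lemma sys_ct {φ : Heis n → ℝ} {K : ℝ} (hK : 0 < K) (hE : EngulfH φ K) (sel : Heis n → Layer n)
    (hsel : ∀ a, sel a ∈ hsubdiff φ a) : Ct (sys hK hE sel hsel) (Tl n) (Wl n) where
  alt x := by simp
  rel _ _ := Iff.rfl

/-- Horizontal engulfing implies full-dimensional engulfing, with a constant depending only
on `K`. -/
theorem engulf (K : ℝ) (hK : 1 < K) : ∃ K' : ℝ, 1 < K' ∧ ∀ (n : ℕ), 1 ≤ n →
    ∀ φ : Heis n → ℝ, HConvex φ → EngulfH φ K → EngulfFull φ K' := by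
  obtain ⟨C, hC, H⟩ := six K hK.le
  refine ⟨K ^ 2 * (C * K ^ 2) + 1, ?_, ?_⟩
  · have : 0 < K ^ 2 * (C * K ^ 2) := by positivity
    linarith
  intro n hn φ hφ hE
  have hK0 : 0 < K := by linarith
  set i : Fin n := ⟨0, hn⟩
  choose sel hsel using fun a => hsubdiff_nonempty hφ i a
  set S := sys hK0 hE sel hsel with hS
  have hct := sys_ct hK0 hE sel hsel
  -- change of subgradient
  have chg : ∀ {p a b}, p ∈ hsubdiff φ a → Hr a b → del φ (sel a) a b ≤ K ^ 2 * del φ p a b := by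
    intro p a b hp h
    have h1 := del_eng hK0 hE (hsel b) (hsel a) (Hr_symm h)
    have h2 := del_eng hK0 hE hp (hsel b) h
    nlinarith
  have chg' : ∀ {p a b}, p ∈ hsubdiff φ a → Hr a b → del φ p a b ≤ K ^ 2 * del φ (sel a) a b := by
    intro p a b hp h
    have h1 := del_eng hK0 hE (hsel b) hp (Hr_symm h)
    have h2 := del_eng hK0 hE (hsel a) (hsel b) h
    nlinarith
  intro ξ p hp s hs ξ' hξ' q hq η hη
  obtain ⟨ξ1, m1, p1, hp1, ξ2, m2, p2, hp2, m3⟩ := hξ'
  obtain ⟨η1, k1, q1, hq1, η2, k2, q2, hq2, k3⟩ := hη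
  rw [mem_hsection] at m1 m2 m3 k1 k2 k3
  have back : ∀ {p a b}, p ∈ hsubdiff φ a → Hr a b → del φ p a b < s →
      S.d b a ≤ K ^ 2 * s := by
    intro p a b hp h hd
    rw [hS, sys_d]
    have h1 := del_eng hK0 hE hp (hsel b) h
    have h2 : K * del φ p a b ≤ K * s := mul_le_mul_of_nonneg_left hd.le hK0.le
    have h3 : K * s ≤ K ^ 2 * s := by nlinarith [mul_pos hK0 hs]
    linarith
  have forw : ∀ {p a b}, p ∈ hsubdiff φ a → Hr a b → del φ p a b < s →
      S.d a b ≤ K ^ 2 * s := by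
    intro p a b hp h hd
    rw [hS, sys_d]
    have h1 := chg hp h
    have h2 : K ^ 2 * del φ p a b ≤ K ^ 2 * s := mul_le_mul_of_nonneg_left hd.le (by positivity)
    linarith
  obtain ⟨b, c, r1, r2, r3, d1, d2, d3⟩ := H (Heis n) S (Tl n) (Wl n) hct ξ' ξ2 ξ1 ξ η1 η2 η
    (Hr_symm m3.1) (Hr_symm m2.1) (Hr_symm m1.1) k1.1 k2.1 k3.1 (K ^ 2 * s) (by positivity)
    (back hp2 m3.1 m3.2) (back hp1 m2.1 m2.2) (back hp m1.1 m1.2)
    (forw hp k1.1 k1.2) (forw hq1 k2.1 k2.2) (forw hq2 k3.1 k3.2)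
  rw [hS, sys_d] at d1 d2 d3
  have hbig : C * (K ^ 2 * s) ≤ K ^ 2 * (C * (K ^ 2 * s)) := by
    have h1 : 1 ≤ K ^ 2 := by nlinarith
    have h2 : 0 ≤ C * (K ^ 2 * s) := by positivity
    nlinarith
  have hexp : (K ^ 2 * (C * K ^ 2) + 1) * s = K ^ 2 * (C * (K ^ 2 * s)) + s := by ring
  refine ⟨b, ?_, sel b, hsel b, c, ?_, sel c, hsel c, ?_⟩
  · rw [mem_hsection]
    refine ⟨r1, ?_⟩
    have h1 := chg' hq r1
    have h2 : K ^ 2 * del φ (sel ξ') ξ' b ≤ K ^ 2 * (C * (K ^ 2 * s)) :=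
      mul_le_mul_of_nonneg_left d1 (by positivity)
    rw [hexp]; linarith
  · rw [mem_hsection]
    refine ⟨r2, ?_⟩
    rw [hexp]; linarith
  · rw [mem_hsection]
    refine ⟨r3, ?_⟩
    rw [hexp]; linarith

end Pool.Agent.helper23.HE
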