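import Pool.Agent.helper23.HE.Chain

/-! From four steps to three steps. -/

namespace Pool.Agent.helper23.HE

open Sys

lemma crit_bounds {A B E : ℝ} (h : Crit A B E) (hB : 0 < B) :
    E < 0 ∧ -E * (19 / 20) < B ∧ B < -E * (21 / 20) ∧ -E * (19 / 20) < A ∧ A < -E * (21 / 20) := by
  obtain ⟨h0, h1, h2⟩ := h
  rcases lt_or_gt_of_ne h0 with hE | hE
  · rw [abs_of_neg hE, abs_lt] at h1 h2
    refine ⟨hE, ?_, ?_, ?_, ?_⟩ <;> linarith
  · rw [abs_of_pos hE, abs_lt] at h1 h2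
    linarith

lemma Crit.neg {A B E : ℝ} (h : Crit A B E) : Crit (-A) (-B) (-E) := by
  obtain ⟨h0, h1, h2⟩ := h
  refine ⟨neg_ne_zero.2 h0, ?_, ?_⟩
  · rwa [← neg_add, abs_neg, abs_neg]
  · rwa [← neg_add, abs_neg, abs_neg]

lemma not_crit_pos {A B E B2 E2 E3 m : ℝ} (h1 : Crit A B E) (h2 : Crit B B2 E2)
    (hm : m = -(A / 2) / (B + E / 2)) (hB : 0 < B) :
    ¬ Crit ((1 - m) * (B + E / 2)) ((1 - m) * B2) E3 := by
  intro h3
  obtain ⟨a1, a2, a3, a4, a5⟩ := crit_bounds h1 hB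
  have hE2 : E2 < 0 := by
    obtain ⟨h0, q1, q2⟩ := h2
    rcases lt_or_gt_of_ne h0 with hE | hE
    · exact hE
    · rw [abs_of_pos hE, abs_lt] at q1
      linarith
  have hB2 : 0 < B2 := by
    obtain ⟨h0, q1, q2⟩ := h2
    rw [abs_of_neg hE2, abs_lt] at q2
    linarith
  obtain ⟨b1, b2, b3, b4, b5⟩ := crit_bounds h2 hB2
  have hP : 0 < B + E / 2 := by linarith
  have hm0 : m < 0 := by
    rw [hm, neg_div]
    have : 0 < A / 2 / (B + E / 2) := div_pos (by linarith) hP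
    linarith
  have hN : 0 < 1 - m := by linarith
  have hd : 0 < (1 - m) * B2 := mul_pos hN hB2
  obtain ⟨c1, c2, c3, c4, c5⟩ := crit_bounds h3 hd
  -- N * B2 < -E3 * 21/20,  -E3*19/20 < N * P
  have h6 : (1 - m) * B2 * (19 / 21) < (1 - m) * (B + E / 2) := by linarith
  have h7 : (1 - m) * (B2 * (19 / 21)) < (1 - m) * (B + E / 2) := by linarith
  have h8 := lt_of_mul_lt_mul_left h7 hN.le
  linarith

lemma not_crit {A B E B2 E2 E3 m : ℝ} (h1 : Crit A B E) (h2 : Crit B B2 E2)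
    (hm : m = -(A / 2) / (B + E / 2)) :
    ¬ Crit ((1 - m) * (B + E / 2)) ((1 - m) * B2) E3 := by
  have hB : B ≠ 0 := by
    intro hB
    obtain ⟨h0, q1, q2⟩ := h1
    rw [hB, zero_add] at q2
    have := abs_pos.2 h0
    linarith
  rcases lt_or_gt_of_ne hB with h | h
  · intro h3
    have := not_crit_pos (A := -A) (B := -B) (E := -E) (B2 := -B2) (E2 := -E2) (E3 := -E3) (m := m)
      h1.neg h2.neg (by
        rw [hm]
        have : -B + -E / 2 = -(B + E / 2) := by ring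
        rw [this]
        have : -(-A / 2) = A / 2 := by ring
        rw [this, div_neg, neg_div]) (by linarith)
    apply this
    have := h3.neg
    convert this using 1
    · ring
    · ring
  · exact not_crit_pos h1 h2 hm h

lemma crit_small {A B E : ℝ} (h : Crit A B E) : A ≠ 0 ∧ B ≠ 0 ∧ E ≠ 0 ∧ |A| ≤ 2 * |E| ∧
    |B| ≤ 2 * |E| ∧ B + E / 2 ≠ 0 ∧ |-(A / 2) / (B + E / 2)| ≤ 2 := by
  obtain ⟨h0, q1, q2⟩ := h
  have hE := abs_pos.2 h0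
  have hA1 : |A| ≤ |E| * (21 / 20) := by
    calc |A| = |(A + E) - E| := by ring_nf
      _ ≤ |A + E| + |E| := abs_sub _ _
      _ ≤ _ := by linarith
  have hB1 : |B| ≤ |E| * (21 / 20) := by
    calc |B| = |(B + E) - E| := by ring_nf
      _ ≤ |B + E| + |E| := abs_sub _ _
      _ ≤ _ := by linarith
  have hP : |E| * (9 / 20) ≤ |B + E / 2| := by
    have : |E / 2| ≤ |B + E| + |B + E / 2| := by
      calc |E / 2| = |(B + E) - (B + E / 2)| := by ring_nf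
        _ ≤ _ := abs_sub _ _
    rw [abs_div, abs_two] at this
    linarith
  have hP0 : 0 < |B + E / 2| := by linarith
  refine ⟨?_, ?_, h0, by linarith, by linarith, abs_pos.1 hP0, ?_⟩
  · rintro rfl
    rw [zero_add] at q1; linarith
  · rintro rfl
    rw [zero_add] at q2; linarith
  · rw [abs_div, abs_neg, abs_div, abs_two, div_le_iff₀ hP0]
    linarith

lemma four (K : ℝ) (hK : 1 ≤ K) : ∃ C : ℝ, 1 ≤ C ∧
    ∀ (V : Type) [AddCommGroup V] [Module ℝ V] (S : Sys K V) (T : V →ₗ[ℝ] ℝ)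
    (W : V →ₗ[ℝ] V →ₗ[ℝ] ℝ), Ct S T W → ∀ a0 a1 a2 a3 a4 : V, S.R a0 a1 → S.R a1 a2 →
    S.R a2 a3 → S.R a3 a4 → ∀ s, 0 ≤ s → S.d a0 a1 ≤ s → S.d a1 a2 ≤ s → S.d a2 a3 ≤ s →
    S.d a3 a4 ≤ s → ∃ b c, S.R a0 b ∧ S.R b c ∧ S.R c a4 ∧ S.d a0 b ≤ C * s ∧ S.d b c ≤ C * s ∧
      S.d c a4 ≤ C * s := by
  obtain ⟨C1, hC1, red1⟩ := red K hK
  obtain ⟨C3, hC3, out1⟩ := outI K hK 2 (by norm_num)
  obtain ⟨C4, hC4, ends⟩ := lineEnds K hK 2
  refine ⟨C1 * (C3 + C4) + C4, ?_, ?_⟩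
  · have : 0 ≤ C1 * (C3 + C4) := by positivity
    linarith
  intro V _ _ S T W hct a0 a1 a2 a3 a4 r1 r2 r3 r4 s hs d1 d2 d3 d4
  have hs4 : s ≤ C4 * s := by nlinarith
  have hq : C1 * s ≤ C1 * (C3 + C4) * s := by
    apply mul_le_mul_of_nonneg_right _ hs
    nlinarith
  have hq0 : 0 ≤ C1 * s := by positivity
  set C := C1 * (C3 + C4) + C4 with hC
  have hexp : C * s = C1 * (C3 + C4) * s + C4 * s := by rw [hC]; ring
  by_cases hcr1 : Crit (W (a1 - a0) (a2 - a1)) (W (a2 - a1) (a3 - a2)) (W (a1 - a0) (a3 - a2))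
  swap
  · obtain ⟨b, q1, q2, q3, q4⟩ := red1 V S T W hct a0 a1 a2 a3 r1 r2 r3 s hs d1 d2 d3 hcr1
    exact ⟨b, a3, q1, q2, r4, by linarith, by linarith, by linarith⟩
  by_cases hcr2 : Crit (W (a2 - a1) (a3 - a2)) (W (a3 - a2) (a4 - a3)) (W (a2 - a1) (a4 - a3))
  swap
  · obtain ⟨b, q1, q2, q3, q4⟩ := red1 V S T W hct a1 a2 a3 a4 r2 r3 r4 s hs d2 d3 d4 hcr2
    exact ⟨a1, b, r1, q1, q2, by linarith, by linarith, by linarith⟩
  obtain ⟨nA, nB, nE, hAE, hBE, nP, hmb⟩ := crit_small hcr1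
  generalize eA : W (a1 - a0) (a2 - a1) = A at *
  generalize eB : W (a2 - a1) (a3 - a2) = B at *
  generalize eE : W (a1 - a0) (a3 - a2) = E at *
  generalize eB2 : W (a3 - a2) (a4 - a3) = B2 at *
  generalize eE2 : W (a2 - a1) (a4 - a3) = E2 at *
  set m := -(A / 2) / (B + E / 2) with hm
  obtain ⟨q1, q2⟩ := out1 V S T W hct a0 a1 a2 a3 r1 r2 r3 A B E eA.symm eB.symm eE.symm nA nB nE
    hAE hBE s hs d1 d2 d3 (1 / 2) m (by norm_num [abs_of_pos]) hmb (by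
      have : m * (B + E / 2) = -(A / 2) := by rw [hm, div_mul_cancel₀ _ nP]
      linarith)
  obtain ⟨x1, x2, x3, x4⟩ := ends V S a0 a1 s r1 d1 hs (1 - 1 / 2) (by norm_num [abs_of_pos])
  obtain ⟨y1, y2, y3, y4⟩ := ends V S a2 a3 s r3 d3 hs m hmb
  set y := pt a0 a1 (1 - 1 / 2) with hy
  set x := pt a2 a3 m with hx
  have exy : x - y = (a2 - a1) + (1 / 2 : ℝ) • (a1 - a0) + m • (a3 - a2) := by
    have : (1 / 2 : ℝ) • (a1 - a0) = (a1 - a0) - (1 - 1 / 2 : ℝ) • (a1 - a0) := by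
      rw [sub_smul, one_smul]; abel
    rw [this, hx, hy, pt, pt]; abel
  have ea3 : a3 - x = (1 - m) • (a3 - a2) := by
    rw [hx, pt, sub_smul, one_smul]; abel
  have hnc : ¬ Crit (W (x - y) (a3 - x)) (W (a3 - x) (a4 - a3)) (W (x - y) (a4 - a3)) := by
    have e1 : W (x - y) (a3 - x) = (1 - m) * (B + E / 2) := by
      rw [exy, ea3]
      simp only [map_add, map_smul, LinearMap.add_apply, LinearMap.smul_apply, smul_eq_mul, eB, eE,
        hct.alt]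
      ring
    have e2 : W (a3 - x) (a4 - a3) = (1 - m) * B2 := by
      rw [ea3, map_smul, LinearMap.smul_apply, eB2, smul_eq_mul]
    rw [e1, e2]
    exact not_crit hcr1 hcr2 hm
  have hs' : 0 ≤ (C3 + C4) * s := by positivity
  have z1 : S.d y x ≤ (C3 + C4) * s := by nlinarith
  have z2 : S.d x a3 ≤ (C3 + C4) * s := by nlinarith
  have z3 : S.d a3 a4 ≤ (C3 + C4) * s := by nlinarith
  obtain ⟨b, w1, w2, w3, w4⟩ := red1 V S T W hct y x a3 a4 q1 y2 r4 _ hs' z1 z2 z3 hnc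
  have e5 : C1 * ((C3 + C4) * s) = C1 * (C3 + C4) * s := by ring
  rw [e5] at w3 w4
  exact ⟨y, b, x1, w1, w2, by linarith, by linarith, by linarith⟩

/-- From six steps to three steps. -/
lemma six (K : ℝ) (hK : 1 ≤ K) : ∃ C : ℝ, 1 ≤ C ∧
    ∀ (V : Type) [AddCommGroup V] [Module ℝ V] (S : Sys K V) (T : V →ₗ[ℝ] ℝ)
    (W : V →ₗ[ℝ] V →ₗ[ℝ] ℝ), Ct S T W → ∀ a0 a1 a2 a3 a4 a5 a6 : V, S.R a0 a1 → S.R a1 a2 →
    S.R a2 a3 → S.R a3 a4 → S.R a4 a5 → S.R a5 a6 → ∀ s, 0 ≤ s → S.d a0 a1 ≤ s →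
    S.d a1 a2 ≤ s → S.d a2 a3 ≤ s → S.d a3 a4 ≤ s → S.d a4 a5 ≤ s → S.d a5 a6 ≤ s →
    ∃ b c, S.R a0 b ∧ S.R b c ∧ S.R c a6 ∧ S.d a0 b ≤ C * s ∧ S.d b c ≤ C * s ∧
      S.d c a6 ≤ C * s := by
  obtain ⟨C, hC, H⟩ := four K hK
  refine ⟨C * (C * C), by nlinarith [mul_pos (by linarith : 0 < C) (by linarith : 0 < C)], ?_⟩
  intro V _ _ S T W hct a0 a1 a2 a3 a4 a5 a6 r1 r2 r3 r4 r5 r6 s hs d1 d2 d3 d4 d5 d6
  have hCs : s ≤ C * s := by nlinarith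
  have hCCs : C * s ≤ C * (C * s) := by nlinarith
  have hCs0 : 0 ≤ C * s := by positivity
  have hCCs0 : 0 ≤ C * (C * s) := by positivity
  obtain ⟨b1, c1, p1, p2, p3, p4, p5, p6⟩ := H V S T W hct a0 a1 a2 a3 a4 r1 r2 r3 r4 s hs d1 d2 d3 d4
  obtain ⟨b2, c2, u1, u2, u3, u4, u5, u6⟩ := H V S T W hct a0 b1 c1 a4 a5 p1 p2 p3 r5 (C * s) hCs0
    p4 p5 p6 (by linarith)
  obtain ⟨b3, c3, v1, v2, v3, v4, v5, v6⟩ := H V S T W hct a0 b2 c2 a5 a6 u1 u2 u3 r6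
    (C * (C * s)) hCCs0 u4 u5 u6 (by linarith)
  have e : C * (C * (C * s)) = C * (C * C) * s := by ring
  rw [e] at v4 v5 v6
  exact ⟨b3, c3, v1, v2, v3, v4, v5, v6⟩

end Pool.Agent.helper23.HE
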