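import Pool.Agent.helper23.HE.Usc

/-! Jensen's inequality on the horizontal plane through a point. -/

namespace Pool.Agent.helper23.HE

open Set Filter Topology

variable {n : ℕ}

/-- weight -/
def wt (η : ℝ) : List (ℝ × Layer n) → ℝ
  | [] => 1
  | p :: L => (1 + η * p.1) * wt η L

/-- accumulated sum -/
def Sj (φ : Heis n → ℝ) (c η : ℝ) : Heis n → List (ℝ × Layer n) → ℝ
  | _, [] => 0
  | b, p :: L => p.1 * wt η L * (φ (hmul b (hexp p.2)) - c) +
      Sj φ c η (hmul b (hexp ((-(η * p.1)) • p.2))) L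

/-- end point -/
def en (η : ℝ) : Heis n → List (ℝ × Layer n) → Heis n
  | b, [] => b
  | b, p :: L => en η (hmul b (hexp ((-(η * p.1)) • p.2))) L

lemma wt_pos {η : ℝ} (hη : 0 < η) (L : List (ℝ × Layer n)) (hL : ∀ p ∈ L, 0 ≤ p.1) :
    0 < wt η L := by
  induction L with
  | nil => simp [wt]
  | cons p L ih =>
    have h1 := ih (fun q hq => hL q (List.mem_cons_of_mem _ hq))
    have h2 := hL p List.mem_cons_self
    simp only [wt]
    positivity

lemma main_ineq {φ : Heis n → ℝ} (h : HConvex φ) (c : ℝ) {η : ℝ} (hη : 0 < η)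
    (L : List (ℝ × Layer n)) (hL : ∀ p ∈ L, 0 ≤ p.1) (b : Heis n) :
    wt η L * (φ b - c) ≤ η * Sj φ c η b L + (φ (en η b L) - c) := by
  induction L generalizing b with
  | nil => simp [wt, Sj, en]
  | cons p L ih =>
    have hL' : ∀ q ∈ L, 0 ≤ q.1 := fun q hq => hL q (List.mem_cons_of_mem _ hq)
    have h1 := ih hL' (hmul b (hexp ((-(η * p.1)) • p.2)))
    have h2 := hL p List.mem_cons_self
    have h3 := wt_pos hη L hL'
    simp only [wt, Sj, en]
    have hd : 0 < 1 + η * p.1 := by positivity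
    have h4 := (h b p.2).2 (mem_univ (1:ℝ)) (mem_univ (-(η * p.1)))
      (show 0 ≤ η * p.1 / (1 + η * p.1) by positivity)
      (show 0 ≤ 1 / (1 + η * p.1) by positivity) (by field_simp; ring)
    have e : (η * p.1 / (1 + η * p.1)) • (1:ℝ) + (1 / (1 + η * p.1)) • (-(η * p.1)) = 0 := by
      simp only [smul_eq_mul]; field_simp; ring
    rw [e] at h4
    simp only [zero_smul, hexp_zero, mul_zero', one_smul, smul_eq_mul] at h4
    have h5 : (1 + η * p.1) * φ b ≤ η * p.1 * φ (hmul b (hexp p.2)) +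
        φ (hmul b (hexp ((-(η * p.1)) • p.2))) := by
      have := mul_le_mul_of_nonneg_left h4 hd.le
      have e2 : (1 + η * p.1) * (η * p.1 / (1 + η * p.1) * φ (hmul b (hexp p.2)) +
          1 / (1 + η * p.1) * φ (hmul b (hexp ((-(η * p.1)) • p.2)))) =
          η * p.1 * φ (hmul b (hexp p.2)) + φ (hmul b (hexp ((-(η * p.1)) • p.2))) := by
        field_simp
      rwa [e2] at this
    have h6 := mul_le_mul_of_nonneg_left h5 h3.le
    nlinarith

lemma wt_tendsto (L : List (ℝ × Layer n)) : Tendsto (fun η => wt η L) (𝓝[>] 0) (𝓝 1) := by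
  induction L with
  | nil => simp [wt]
  | cons p L ih =>
    simp only [wt]
    have : Tendsto (fun η : ℝ => 1 + η * p.1) (𝓝[>] 0) (𝓝 1) := by
      have hc : Continuous (fun η : ℝ => 1 + η * p.1) := by fun_prop
      have := hc.tendsto 0
      simp only [zero_mul, add_zero] at this
      exact this.mono_left nhdsWithin_le_nhds
    simpa using this.mul ih

lemma Sj_usc {φ : Heis n → ℝ} (h : HConvex φ) (i : Fin n) (c : ℝ) (ξ : Heis n)
    (L : List (ℝ × Layer n)) (hL : ∀ p ∈ L, 0 ≤ p.1) (b : ℝ → Heis n)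
    (hb : Tendsto b (𝓝[>] 0) (𝓝 ξ)) (ε : ℝ) (hε : 0 < ε) :
    ∀ᶠ η in 𝓝[>] (0:ℝ), Sj φ c η (b η) L ≤
      (L.map (fun p => p.1 * (φ (hmul ξ (hexp p.2)) - c))).sum + ε := by
  induction L generalizing b ε with
  | nil => simp only [Sj, List.map_nil, List.sum_nil]; exact Eventually.of_forall fun _ => by linarith
  | cons p L ih =>
    have hL' : ∀ q ∈ L, 0 ≤ q.1 := fun q hq => hL q (List.mem_cons_of_mem _ hq)
    have h2 := hL p List.mem_cons_self
    simp only [Sj, List.map_cons, List.sum_cons]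
    have hb' : Tendsto (fun η => hmul (b η) (hexp ((-(η * p.1)) • p.2))) (𝓝[>] 0) (𝓝 ξ) := by
      have hcont : Continuous (fun q : Heis n × ℝ => hmul q.1 (hexp ((-(q.2 * p.1)) • p.2))) := by
        apply hmul_cont continuous_fst (hexp_cont _)
        fun_prop
      have h1 := hcont.tendsto (ξ, (0 : ℝ))
      simp only [zero_mul, neg_zero, zero_smul, hexp_zero, mul_zero'] at h1
      have h3 : Tendsto (fun η : ℝ => η) (𝓝[>] 0) (𝓝 0) := tendsto_id.mono_left nhdsWithin_le_nhds
      exact h1.comp (hb.prodMk_nhds h3)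
    have h3 := ih hL' _ hb' (ε / 2) (by linarith)
    -- first term
    set ε' := ε / (4 * (p.1 + 1)) with hε'
    have hε'0 : 0 < ε' := by positivity
    have hε'1 : p.1 * ε' ≤ ε / 4 := by
      rw [hε', mul_div_assoc', div_le_div_iff₀ (by positivity) (by norm_num)]
      nlinarith
    have h4 : Tendsto (fun η => hmul (b η) (hexp p.2)) (𝓝[>] 0) (𝓝 (hmul ξ (hexp p.2))) := by
      have hcont : Continuous (fun q : Heis n => hmul q (hexp p.2)) :=
        hmul_cont continuous_id continuous_const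
      exact (hcont.tendsto ξ).comp hb
    have h5 := h4.eventually (usc h i (hmul ξ (hexp p.2)) ε' hε'0)
    set A := φ (hmul ξ (hexp p.2)) with hA
    have h6 : Tendsto (fun η => p.1 * wt η L * (A + ε' - c)) (𝓝[>] 0) (𝓝 (p.1 * 1 * (A + ε' - c))) :=
      (tendsto_const_nhds.mul (wt_tendsto L)).mul tendsto_const_nhds
    have h7 := h6.eventually_lt_const (show p.1 * 1 * (A + ε' - c) < p.1 * 1 * (A + ε' - c) + ε / 4 by
      linarith)
    filter_upwards [h3, h5, h7, self_mem_nhdsWithin] with η q3 q5 q7 hη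
    have hw := wt_pos (show 0 < η from hη) L hL'
    have q8 : p.1 * wt η L * (φ (hmul (b η) (hexp p.2)) - c) ≤ p.1 * wt η L * (A + ε' - c) := by
      apply mul_le_mul_of_nonneg_left (by linarith) (by positivity)
    nlinarith

/-- weighted sum of the vectors -/
def Xs (L : List (ℝ × Layer n)) : Layer n := (L.map (fun p => p.1 • p.2)).sum

/-- symplectic form -/
def om (v w : Layer n) : ℝ := dotProduct v.1 w.2 - dotProduct w.1 v.2

/-- area -/
def Ar : List (ℝ × Layer n) → ℝ
  | [] => 0
  | p :: L => om (p.1 • p.2) (Xs L) + Ar L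

lemma om_self (v : Layer n) : om v v = 0 := by
  unfold om; ring

lemma om_comm (v w : Layer n) : om v w = - om w v := by
  unfold om; ring

lemma om_add (u v w : Layer n) : om (u + v) w = om u w + om v w := by
  simp only [om, Prod.fst_add, Prod.snd_add, dp_add, dp_add']; ring

lemma om_add' (u v w : Layer n) : om u (v + w) = om u v + om u w := by
  simp only [om, Prod.fst_add, Prod.snd_add, dp_add, dp_add']; ring

lemma Xs_cons (p : ℝ × Layer n) (L : List (ℝ × Layer n)) : Xs (p :: L) = p.1 • p.2 + Xs L := by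
  simp [Xs]

lemma Xs_append (L L' : List (ℝ × Layer n)) : Xs (L ++ L') = Xs L + Xs L' := by
  simp [Xs]

lemma Xs_reverse (L : List (ℝ × Layer n)) : Xs L.reverse = Xs L := by
  simp [Xs, List.map_reverse, List.sum_reverse]

lemma om_zero (v : Layer n) : om v 0 = 0 := by simp [om]

lemma Ar_append (L L' : List (ℝ × Layer n)) : Ar (L ++ L') = Ar L + Ar L' + om (Xs L) (Xs L') := by
  induction L with
  | nil => simp [Ar, Xs, om]
  | cons p L ih =>
    simp only [List.cons_append, Ar, ih, Xs_append, Xs_cons, om_add, om_add']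
    ring

lemma Ar_reverse (L : List (ℝ × Layer n)) : Ar L.reverse = - Ar L := by
  induction L with
  | nil => simp [Ar]
  | cons p L ih =>
    rw [List.reverse_cons, Ar_append, ih, Xs_reverse]
    have : Xs ([p] : List (ℝ × Layer n)) = p.1 • p.2 := by simp [Xs]
    simp only [Ar, this, om_comm (Xs L)]
    have : Xs ([] : List (ℝ × Layer n)) = 0 := rfl
    rw [this, om_zero]
    ring

lemma en_eq (η : ℝ) (L : List (ℝ × Layer n)) (b : Heis n) : en η b L =
    (b.1 - η • (Xs L).1, b.2.1 - η • (Xs L).2,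
      b.2.2 + 2 * η * om (b.1, b.2.1) (Xs L) - 2 * η ^ 2 * Ar L) := by
  induction L generalizing b with
  | nil => simp [en, Xs, Ar, om]
  | cons p L ih =>
    rw [en, ih]
    simp only [hmul, hexp, Xs_cons, Ar, om, Prod.fst_add, Prod.snd_add, Prod.smul_fst,
      Prod.smul_snd]
    ext j
    · simp; ring
    · simp; ring
    · simp only [dp_add, dp_add', smul_dotProduct, dotProduct_smul, smul_eq_mul]
      ring

lemma en_closed (η : ℝ) (L : List (ℝ × Layer n)) (hL : Xs L = 0) (b : Heis n) :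
    en η b (L ++ L.reverse) = b := by
  rw [en_eq, Xs_append, Xs_reverse, Ar_append, Ar_reverse, Xs_reverse, hL]
  simp [om]

/-- Jensen's inequality on the horizontal plane. -/
lemma jensen {φ : Heis n → ℝ} (h : HConvex φ) (i : Fin n) (ξ : Heis n)
    (L : List (ℝ × Layer n)) (hL : ∀ p ∈ L, 0 ≤ p.1) (hX : Xs L = 0) :
    0 ≤ (L.map (fun p => p.1 * (φ (hmul ξ (hexp p.2)) - φ ξ))).sum := by
  set L2 := L ++ L.reverse with hL2
  have hL2' : ∀ p ∈ L2, 0 ≤ p.1 := by
    intro p hp
    rw [hL2, List.mem_append, List.mem_reverse, or_self] at hp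
    exact hL p hp
  have hpos : ∀ η : ℝ, 0 < η → 0 ≤ Sj φ (φ ξ) η ξ L2 := by
    intro η hη
    have := main_ineq h (φ ξ) hη L2 hL2' ξ
    rw [hL2, en_closed η L hX, sub_self, mul_zero, add_zero] at this
    by_contra hc
    push Not at hc
    rw [hL2] at hc
    nlinarith
  have hsum : (L2.map (fun p => p.1 * (φ (hmul ξ (hexp p.2)) - φ ξ))).sum =
      2 * (L.map (fun p => p.1 * (φ (hmul ξ (hexp p.2)) - φ ξ))).sum := by
    rw [hL2, List.map_append, List.sum_append, List.map_reverse, List.sum_reverse]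
    ring
  by_contra hneg
  push Not at hneg
  set Q := (L.map (fun p => p.1 * (φ (hmul ξ (hexp p.2)) - φ ξ))).sum with hQ
  have he := Sj_usc h i (φ ξ) ξ L2 hL2' (fun _ => ξ) tendsto_const_nhds (-Q) (by linarith)
  rw [hsum] at he
  obtain ⟨η, h1, h2⟩ := (he.and self_mem_nhdsWithin).exists
  have := hpos η h2
  linarith

end Pool.Agent.helper23.HE
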