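import Mathlib

/-! One-dimensional engulfing: doubling estimates for a convex function on the line together with
a selection of slopes. -/

namespace Pool.Agent.helper23.HE

/-- `c` selects slopes of `f`, and the gaps are quasi-symmetric with constant `K`. -/
def E1 (K : ℝ) (f c : ℝ → ℝ) : Prop :=
  (∀ a b, 0 ≤ f b - f a - c a * (b - a)) ∧
  (∀ a b, f a - f b - c b * (a - b) ≤ K * (f b - f a - c a * (b - a)))

/-- gap -/
def gap (f c : ℝ → ℝ) (a b : ℝ) : ℝ := f b - f a - c a * (b - a)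

lemma E1.norm {K : ℝ} {f c : ℝ → ℝ} (h : E1 K f c) (p q : ℝ) :
    E1 K (fun τ => f (p + τ * q) - f p - c p * (τ * q)) (fun τ => q * c (p + τ * q) - q * c p) := by
  constructor
  · intro a b
    have := h.1 (p + a * q) (p + b * q)
    simp only
    nlinarith [this]
  · intro a b
    have := h.2 (p + a * q) (p + b * q)
    simp only
    have e1 : f (p + a * q) - f p - c p * (a * q) - (f (p + b * q) - f p - c p * (b * q)) -
        (q * c (p + b * q) - q * c p) * (a - b) =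
        f (p + a * q) - f (p + b * q) - c (p + b * q) * (p + a * q - (p + b * q)) := by ring
    have e2 : f (p + b * q) - f p - c p * (b * q) - (f (p + a * q) - f p - c p * (a * q)) -
        (q * c (p + a * q) - q * c p) * (b - a) =
        f (p + b * q) - f (p + a * q) - c (p + a * q) * (p + b * q - (p + a * q)) := by ring
    rw [e1, e2]; exact this

/-- growth on the positive side, normalised case -/
lemma growth_step {K : ℝ} (hK : 1 ≤ K) {f c : ℝ → ℝ} (h : E1 K f c) (f0 : f 0 = 0) (c0 : c 0 = 0)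
    {τ : ℝ} (hτ : 0 ≤ τ) : f ((1 + 1 / (2 * (K + 1))) * τ) ≤ 2 * f τ := by
  set ε := 1 / (2 * (K + 1)) with hε
  have hε0 : 0 < ε := by positivity
  have hKε : (K + 1) * ε = 1 / 2 := by rw [hε]; field_simp
  set t := (1 + ε) * τ with ht
  have h1 := h.1 t τ
  have h2 := h.2 0 t
  rw [f0, c0] at h2
  have h3 : c t * t ≤ (K + 1) * f t := by nlinarith
  have h5 : 0 ≤ c t * t := by
    have := h.1 t 0
    have h6 := h.1 0 t
    rw [f0] at this
    rw [f0, c0] at h6
    nlinarith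
  have h4 : c t * (t - τ) * (1 + ε) = c t * t * ε := by rw [ht]; ring
  have h7 : c t * (t - τ) ≤ (1 / 2) * f t := by
    have hft : 0 ≤ f t := by
      have h6 := h.1 0 t
      rw [f0, c0] at h6
      nlinarith
    have h8 : c t * (t - τ) * (1 + ε) ≤ (1 / 2) * f t * (1 + ε) := by
      rw [h4]
      have : c t * t * ε ≤ (K + 1) * f t * ε := by
        exact mul_le_mul_of_nonneg_right h3 hε0.le
      have h9 : (K + 1) * f t * ε = (1 / 2) * f t := by
        calc (K + 1) * f t * ε = ((K + 1) * ε) * f t := by ring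
          _ = _ := by rw [hKε]
      nlinarith
    exact le_of_mul_le_mul_right h8 (by linarith)
  nlinarith

lemma growth_iter {K : ℝ} (hK : 1 ≤ K) {f c : ℝ → ℝ} (h : E1 K f c) (f0 : f 0 = 0) (c0 : c 0 = 0)
    {τ : ℝ} (hτ : 0 ≤ τ) (m : ℕ) : f ((1 + 1 / (2 * (K + 1))) ^ m * τ) ≤ 2 ^ m * f τ := by
  induction m with
  | zero => simp
  | succ m ih =>
    have hp : 0 ≤ (1 + 1 / (2 * (K + 1))) ^ m * τ := by positivity
    have := growth_step hK h f0 c0 hp
    calc f ((1 + 1 / (2 * (K + 1))) ^ (m + 1) * τ)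
        = f ((1 + 1 / (2 * (K + 1))) * ((1 + 1 / (2 * (K + 1))) ^ m * τ)) := by
          congr 1; ring
      _ ≤ 2 * f ((1 + 1 / (2 * (K + 1))) ^ m * τ) := this
      _ ≤ 2 * (2 ^ m * f τ) := by linarith
      _ = 2 ^ (m + 1) * f τ := by ring

lemma mono_pos {K : ℝ} {f c : ℝ → ℝ} (h : E1 K f c) (f0 : f 0 = 0) (c0 : c 0 = 0)
    {σ τ : ℝ} (hσ : 0 ≤ σ) (hτ : σ ≤ τ) : f σ ≤ f τ := by
  have h1 := h.1 σ τ
  have h2 := h.1 σ 0
  have h3 := h.1 0 σ
  have h4 := h.1 0 τ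
  rw [f0] at h2
  rw [f0, c0] at h3 h4
  have h5 : 0 ≤ c σ * σ := by nlinarith
  rcases eq_or_lt_of_le hσ with hσ0 | hσ0
  · rw [← hσ0, f0]; nlinarith
  · have : 0 ≤ c σ := by
      by_contra hc
      push Not at hc
      nlinarith
    nlinarith

lemma dblPos (K : ℝ) (hK : 1 ≤ K) (R : ℝ) : ∃ C : ℝ, 1 ≤ C ∧ ∀ f c : ℝ → ℝ, E1 K f c →
    f 0 = 0 → c 0 = 0 → ∀ τ : ℝ, 0 ≤ τ → τ ≤ R → f τ ≤ C * f 1 := by
  have hb : 1 < 1 + 1 / (2 * (K + 1)) := by
    have : 0 < 1 / (2 * (K + 1)) := by positivity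
    linarith
  obtain ⟨m, hm⟩ := pow_unbounded_of_one_lt R hb
  refine ⟨2 ^ m, one_le_pow₀ (by norm_num), ?_⟩
  intro f c h f0 c0 τ h1 h2
  have h3 := growth_iter hK h f0 c0 (show (0:ℝ) ≤ 1 by norm_num) m
  rw [mul_one] at h3
  exact (mono_pos h f0 c0 h1 (h2.trans hm.le)).trans h3

lemma dblNeg (K : ℝ) (hK : 1 ≤ K) (R : ℝ) : ∃ C : ℝ, 1 ≤ C ∧ ∀ f c : ℝ → ℝ, E1 K f c →
    f 0 = 0 → c 0 = 0 → ∀ τ : ℝ, |τ| ≤ R → f τ ≤ C * f 1 := by
  obtain ⟨C1, hC1, H1⟩ := dblPos K hK (max R 2)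
  refine ⟨C1 * (1 + C1 * K), ?_, ?_⟩
  · nlinarith [mul_nonneg (by linarith : (0:ℝ) ≤ C1) (by nlinarith : (0:ℝ) ≤ C1 * K)]
  intro f c h f0 c0 τ hτ
  have hf1 : 0 ≤ f 1 := by
    have := h.1 0 1; rw [f0, c0] at this; nlinarith
  rcases le_total 0 τ with hp | hn
  · have := H1 f c h f0 c0 τ hp (le_trans (by rwa [abs_of_nonneg hp] at hτ) (le_max_left _ _))
    have h2 : C1 * f 1 ≤ C1 * (1 + C1 * K) * f 1 := by
      apply mul_le_mul_of_nonneg_right _ hf1
      nlinarith [mul_nonneg (by linarith : (0:ℝ) ≤ C1) (by nlinarith : (0:ℝ) ≤ C1 * K)]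
    linarith
  · -- reflected function
    have hr := h.norm 0 (-1)
    have hm1 : f (-1) ≤ (1 + C1 * K) * f 1 := by
      have h3 := h.norm 1 (-1)
      have h4 := H1 _ _ h3 (by simp) (by simp) 2 (by norm_num) (le_max_right _ _)
      norm_num at h4
      rw [f0] at h4
      have h5 := h.2 0 1
      rw [f0, c0] at h5
      have h6 := h.1 1 0
      rw [f0] at h6
      have hc1 : 0 ≤ c 1 := by nlinarith
      have h7 : C1 * (0 - f 1 + c 1) ≤ C1 * (K * f 1) := by
        apply mul_le_mul_of_nonneg_left _ (by linarith)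
        nlinarith
      nlinarith
    have h8 := H1 _ _ hr (by simp) (by simp) (-τ) (by linarith)
      (le_trans (by rwa [abs_of_nonpos hn] at hτ) (le_max_left _ _))
    simp only [f0, c0] at h8
    norm_num at h8
    calc f τ ≤ C1 * f (-1) := h8
      _ ≤ C1 * ((1 + C1 * K) * f 1) := by
        apply mul_le_mul_of_nonneg_left hm1 (by linarith)
      _ = _ := by ring

/-- Doubling from a base point. -/
lemma dbl (K : ℝ) (hK : 1 ≤ K) (R : ℝ) : ∃ C : ℝ, 1 ≤ C ∧ ∀ f c : ℝ → ℝ, E1 K f c →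
    ∀ p q τ : ℝ, |τ| ≤ R → gap f c p (p + τ * q) ≤ C * gap f c p (p + q) := by
  obtain ⟨C, hC, H⟩ := dblNeg K hK R
  refine ⟨C, hC, ?_⟩
  intro f c h p q τ hτ
  have := H _ _ (h.norm p q) (by simp) (by simp) τ hτ
  simp only [gap]
  simp only [one_mul] at this
  convert this using 1
  · ring
  · ring

/-- All gaps between points of parameter at most `R` are bounded by the unit gap. -/
lemma dbl2 (K : ℝ) (hK : 1 ≤ K) (R : ℝ) : ∃ C : ℝ, 1 ≤ C ∧ ∀ f c : ℝ → ℝ, E1 K f c →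
    ∀ a b : ℝ, |a| ≤ R → |b| ≤ R → gap f c a b ≤ C * gap f c 0 1 := by
  rcases lt_or_ge R 0 with hR | hR
  · exact ⟨1, le_rfl, fun f c _ a b ha _ => absurd (abs_nonneg a) (by linarith)⟩
  obtain ⟨C, hC, H⟩ := dblNeg K hK (R + 1)
  refine ⟨C + 2 * R * C, by nlinarith, ?_⟩
  intro f c h a b ha hb
  have hn := h.norm 0 1
  set g : ℝ → ℝ := fun τ => f (0 + τ * 1) - f 0 - c 0 * (τ * 1) with hg
  set e : ℝ → ℝ := fun τ => 1 * c (0 + τ * 1) - 1 * c 0 with he
  have hg0 : g 0 = 0 := by simp [hg]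
  have he0 : e 0 = 0 := by simp [he]
  have h1 : gap f c 0 1 = g 1 := by simp [gap, hg]
  have h2 : gap f c a b = g b - g a - e a * (b - a) := by simp [gap, hg, he]; ring
  rw [h1, h2]
  have hga : 0 ≤ g a := by have := hn.1 0 a; rw [hg0, he0] at this; nlinarith
  have hgb := H g e hn hg0 he0 b (by linarith)
  have hg1 : 0 ≤ g 1 := by have := hn.1 0 1; rw [hg0, he0] at this; nlinarith
  have hea : |e a| ≤ C * g 1 := by
    have h3 := hn.1 a (a + 1)
    have h4 := hn.1 a (a - 1)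
    have h5 := H g e hn hg0 he0 (a + 1) (by
      calc |a + 1| ≤ |a| + |1| := abs_add_le _ _
        _ ≤ R + 1 := by simp; linarith)
    have h6 := H g e hn hg0 he0 (a - 1) (by
      calc |a - 1| ≤ |a| + |1| := abs_sub _ _
        _ ≤ R + 1 := by simp; linarith)
    rw [abs_le]; constructor <;> nlinarith
  have hab : |b - a| ≤ 2 * R := by
    calc |b - a| ≤ |b| + |a| := abs_sub _ _
      _ ≤ 2 * R := by linarith
  have h7 : -(e a * (b - a)) ≤ C * g 1 * (2 * R) := by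
    calc -(e a * (b - a)) ≤ |e a * (b - a)| := neg_le_abs _
      _ = |e a| * |b - a| := abs_mul _ _
      _ ≤ C * g 1 * (2 * R) := by
        apply mul_le_mul hea hab (abs_nonneg _) (by nlinarith)
  nlinarith

end Pool.Agent.helper23.HE
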