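import Pool.Agent.helper23.HE.Sys

/-! Regulus lemma in three dimensional slices. -/

namespace Pool.Agent.helper23.HE

open Sys

lemma pt_mk (x y z x' y' z' τ : ℝ) : pt ((x, y, z) : ℝ × ℝ × ℝ) (x', y', z') τ =
    (x + τ * (x' - x), y + τ * (y' - y), z + τ * (z' - z)) := by
  simp [pt]

lemma le_abs_of {x y : ℝ} (h : |x| ≤ y) : x ≤ y ∧ -y ≤ x := ⟨(abs_le.1 h).2, (abs_le.1 h).1⟩

/-- the regulus lemma -/
lemma regulus (K : ℝ) (hK : 1 ≤ K) : ∃ C : ℝ, 1 ≤ C ∧ ∀ (S : Sys K (ℝ × ℝ × ℝ)),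
    (∀ x y t x' y' t' : ℝ, t' - t - (x * y' - x' * y) = 0 → S.R (x, y, t) (x', y', t')) →
    ∀ (ρ1 ρ2 M : ℝ), 2 ≤ ρ1 → 2 ≤ ρ2 → 0 ≤ M → (∀ x, |x| ≤ ρ1 → S.f (x, 0, 0) ≤ M) →
    (∀ y, |y| ≤ ρ2 → S.f (0, y, 1) ≤ M) → -M ≤ S.f (1, 0, 0) → -M ≤ S.f (0, 1, 1) →
    S.d (1, 0, 0) (0, 1, 1) ≤ M → ∀ a b : ℝ, a * b = 1 → |a| ≤ ρ1 → |b| ≤ ρ2 →
    S.d (a, 0, 0) (0, b, 1) ≤ C * M := by
  obtain ⟨C0, hC0, flat0⟩ := flat K hK 2
  obtain ⟨C2, hC2, three2⟩ := three K hK (1 / 5) (by norm_num) 4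
  have hC0' : 0 < C0 := by linarith
  have hC2' : 0 < C2 := by linarith
  refine ⟨1 + C2 * (1 + 2 * (C0 + 1 / 3 * (C2 * (5 * (C0 + 1)) + C0) + 10 / 9 * C0)), ?_, ?_⟩
  · have : 0 ≤ C2 * (1 + 2 * (C0 + 1 / 3 * (C2 * (5 * (C0 + 1)) + C0) + 10 / 9 * C0)) := by
      positivity
    linarith
  intro S hR ρ1 ρ2 M hρ1 hρ2 hM h1 h2 h3 h4 h5 a b hab ha hb
  have u1 := h1 1 (by norm_num; linarith)
  have u2 := h2 1 (by norm_num; linarith)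
  have hR0 : S.R (1, 0, 0) (0, 1, 1) := hR _ _ _ _ _ _ (by norm_num)
  have fl := flat0 _ S (1, 0, 0) (0, 1, 1) M hR0 (abs_le.2 ⟨h3, u1⟩) (abs_le.2 ⟨h4, u2⟩) h5
  -- r
  have fr := fl 2 (by norm_num)
  rw [pt_mk] at fr
  norm_num at fr
  obtain ⟨fr1, fr2⟩ := fr
  have fr' := fl (2 / 3) (by norm_num)
  rw [pt_mk] at fr'
  norm_num at fr'
  obtain ⟨fr'1, fr'2⟩ := fr'
  rw [abs_le] at fr1 fr2 fr'1 fr'2
  -- s1
  have s1 : S.f (2 / 5, 2 / 5, 4 / 5) ≤ M := by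
    have := S.conv_le (hR 2 0 0 0 (1 / 2) 1 (by norm_num)) (σ := 4 / 5) (M := M) (by norm_num)
      (by norm_num) (h1 _ (by norm_num; linarith)) (h2 _ (by norm_num [abs_of_pos]; linarith))
    rw [pt_mk] at this
    norm_num at this
    exact this
  have low1 := S.nn _ _ (hR (-1) 2 2 (2 / 5) (2 / 5) (4 / 5) (by norm_num))
  have low2 := S.nn _ _ (hR (-1) 2 2 (2 / 7) (6 / 7) (4 / 7) (by norm_num))
  have e1 : (1 / 7 : ℝ) • (((2 / 5, 2 / 5, 4 / 5) : ℝ × ℝ × ℝ) - (-1, 2, 2)) +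
      (1 / 5 : ℝ) • (((2 / 7, 6 / 7, 4 / 7) : ℝ × ℝ × ℝ) - (-1, 2, 2)) =
      (-(16 / 35) : ℝ) • ((-1, 1, 1) : ℝ × ℝ × ℝ) := by
    norm_num
  have e1' := congrArg (S.l (-1, 2, 2)) e1
  rw [map_add, map_smul, map_smul, map_smul, smul_eq_mul, smul_eq_mul, smul_eq_mul] at e1'
  have s2 : -(5 * (C0 + 1) * M) ≤ S.f (2 / 7, 6 / 7, 4 / 7) := by
    nlinarith
  have hC0M : 0 ≤ C0 * M := by positivity
  have s3 := (three2 _ S (2 / 3, 0, 0) (0, 3 / 2, 1) (5 * (C0 + 1) * M) (4 / 7)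
    (hR _ _ _ _ _ _ (by norm_num))
    ((h1 _ (by norm_num [abs_of_pos]; linarith)).trans (by nlinarith))
    ((h2 _ (by norm_num [abs_of_pos]; linarith)).trans (by nlinarith))
    (by norm_num) (by norm_num) (by rw [pt_mk]; norm_num; norm_num at s2; linarith)
    (by positivity)).2 4 (by norm_num)
  rw [pt_mk] at s3
  norm_num at s3
  -- c
  have low3 := S.nn _ _ (hR (1 / 3) (2 / 3) (2 / 3) 0 0 (2 / 3) (by norm_num))
  have low4 := S.nn _ _ (hR (1 / 3) (2 / 3) (2 / 3) (-2) 6 4 (by norm_num))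
  have e2 : (((0, 0, 2 / 3) : ℝ × ℝ × ℝ) - (1 / 3, 2 / 3, 2 / 3)) =
      (-(1 / 3) : ℝ) • (((-2, 6, 4) : ℝ × ℝ × ℝ) - (1 / 3, 2 / 3, 2 / 3)) +
      (10 / 9 : ℝ) • ((-1, 1, 1) : ℝ × ℝ × ℝ) := by
    norm_num
  have e2' := congrArg (S.l (1 / 3, 2 / 3, 2 / 3)) e2
  rw [map_add, map_smul, map_smul, smul_eq_mul, smul_eq_mul] at e2'
  have hc : -((C0 + 1 / 3 * (C2 * (5 * (C0 + 1)) + C0) + 10 / 9 * C0) * M) ≤
      S.f (0, 0, 2 / 3) := by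
    nlinarith
  -- s
  have s5 : S.f (-a / 3, -2 * b / 3, 2 / 3) ≤ M := by
    have := S.conv_le (hR (-a) 0 0 0 (-b) 1 (by nlinarith)) (σ := 2 / 3) (M := M) (by norm_num)
      (by norm_num) (h1 _ (by rwa [abs_neg])) (h2 _ (by rwa [abs_neg]))
    rw [pt_mk] at this
    convert this using 2
    norm_num
    constructor <;> ring
  have s6 := S.conv (hR (a / 3) (2 * b / 3) (2 / 3) (-a / 3) (-2 * b / 3) (2 / 3) (by ring))
    (σ := 1 / 2) (by norm_num) (by norm_num)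
  rw [pt_mk] at s6
  have e3 : ((a / 3 + 1 / 2 * (-a / 3 - a / 3), 2 * b / 3 + 1 / 2 * (-2 * b / 3 - 2 * b / 3),
      2 / 3 + 1 / 2 * (2 / 3 - 2 / 3)) : ℝ × ℝ × ℝ) = (0, 0, 2 / 3) := by
    norm_num
    constructor <;> ring
  rw [e3] at s6
  set Q := C0 + 1 / 3 * (C2 * (5 * (C0 + 1)) + C0) + 10 / 9 * C0 with hQ
  have hQ0 : 0 ≤ Q := by positivity
  have s7 : -((1 + 2 * Q) * M) ≤ S.f (a / 3, 2 * b / 3, 2 / 3) := by
    nlinarith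
  have hM' : M ≤ (1 + 2 * Q) * M := by nlinarith
  have s8 := (three2 _ S (a, 0, 0) (0, b, 1) ((1 + 2 * Q) * M) (2 / 3)
    (hR _ _ _ _ _ _ (by linarith)) ((h1 _ ha).trans hM') ((h2 _ hb).trans hM')
    (by norm_num) (by norm_num) (by
      rw [pt_mk]
      convert s7 using 2
      norm_num
      constructor <;> ring)
    (by positivity)).1
  nlinarith

end Pool.Agent.helper23.HE
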