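import Pool.Agent.helper23.HE.Slice

/-! Two cases for three dimensional slices spanned by a chain. -/

namespace Pool.Agent.helper23.HE

open Sys

lemma Sys.slice_d {K : ℝ} {V : Type*} [AddCommGroup V] [Module ℝ V] (S : Sys K V)
    (a u v w : V) (p q : ℝ × ℝ × ℝ) : (S.slice a u v w).d p q =
    S.d (a + p.1 • u + p.2.1 • v + p.2.2 • w) (a + q.1 • u + q.2.1 • v + q.2.2 • w) := by
  simp only [Sys.d, Sys.slice, LinearMap.comp_apply, LinearMap.add_apply,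
    LinearMap.smulRight_apply, LinearMap.fst_apply, LinearMap.snd_apply, Prod.fst_sub,
    Prod.snd_sub, sub_smul]
  congr 2
  abel

lemma Sys.sub_d {K : ℝ} {V : Type*} [AddCommGroup V] [Module ℝ V] (S : Sys K V)
    (k : ℝ) (g : V →ₗ[ℝ] ℝ) (p q : V) : (S.sub k g).d p q = S.d p q := by
  simp only [Sys.d, Sys.sub, LinearMap.sub_apply, map_sub]
  ring

/-- the relation of a chain slice -/
def Rel (A B E : ℝ) (S : ℝ × ℝ × ℝ → ℝ × ℝ × ℝ → Prop) : Prop :=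
  ∀ x y z x' y' z' : ℝ, -B * (z' - z) + A * (x * y' - x' * y) + E * (x * z' - x' * z) +
    B * (y * z' - y' * z) = 0 → S (x, y, z) (x', y', z')

lemma caseI (K : ℝ) (hK : 1 ≤ K) (R : ℝ) (hR2 : 2 ≤ R) : ∃ C : ℝ, 1 ≤ C ∧
    ∀ (S : Sys K (ℝ × ℝ × ℝ)) (A B E : ℝ), Rel A B E S.R →
    A ≠ 0 → B ≠ 0 → E ≠ 0 → |A| ≤ 2 * |E| → |B| ≤ 2 * |E| → ∀ M, 0 ≤ M →
    (∀ x, |x| ≤ 4 + R → S.f (x, 0, 0) ≤ M) → (∀ z, |z| ≤ 4 + R → S.f (0, 1, z) ≤ M) →
    -M ≤ S.f (0, 0, 0) → -M ≤ S.f (0, 1, 0) → S.d (0, 0, 0) (0, 1, 0) ≤ M →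
    ∀ a b, |a| ≤ R → |b| ≤ R → a * A + b * B + a * b * E = 0 →
    S.d (-a, 0, 0) (0, 1, b) ≤ C * M := by
  obtain ⟨C, hC, H⟩ := regulus K hK
  refine ⟨C, hC, ?_⟩
  intro S A B E hS hA hB hE hAE hBE M hM h1 h2 h3 h4 h5 a b ha hb hab
  have ev : ∀ p : ℝ × ℝ × ℝ, ((B / E, 0, 0) : ℝ × ℝ × ℝ) + p.1 • ((-(B / E), 0, 0) : ℝ × ℝ × ℝ) +
      p.2.1 • ((0, 0, A / E) : ℝ × ℝ × ℝ) + p.2.2 • ((-(B / E), 1, -(A / E)) : ℝ × ℝ × ℝ) =
      (B / E * (1 - p.1 - p.2.2), p.2.2, A / E * (p.2.1 - p.2.2)) := by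
    intro p
    ext
    · simp; ring
    · simp
    · simp; ring
  set T := S.slice (B / E, 0, 0) (-(B / E), 0, 0) (0, 0, A / E) (-(B / E), 1, -(A / E)) with hT
  have hTf : ∀ x y t, T.f (x, y, t) = S.f (B / E * (1 - x - t), t, A / E * (y - t)) := by
    intro x y t
    rw [hT]; simp only [Sys.slice, ev]
  have hTR : ∀ x y t x' y' t', T.R (x, y, t) (x', y', t') ↔
      S.R (B / E * (1 - x - t), t, A / E * (y - t)) (B / E * (1 - x' - t'), t', A / E * (y' - t')) := by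
    intro x y t x' y' t'
    rw [hT]; simp only [Sys.slice, ev]
  have hTd : ∀ x y t x' y' t', T.d (x, y, t) (x', y', t') =
      S.d (B / E * (1 - x - t), t, A / E * (y - t)) (B / E * (1 - x' - t'), t', A / E * (y' - t')) := by
    intro x y t x' y' t'
    rw [hT, Sys.slice_d, ev (x, y, t), ev (x', y', t')]
  have hEA : 1 / 2 ≤ |E / A| := by
    rw [abs_div, le_div_iff₀ (abs_pos.2 hA)]; linarith
  have hEB : 1 / 2 ≤ |E / B| := by
    rw [abs_div, le_div_iff₀ (abs_pos.2 hB)]; linarith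
  have hBE2 : |B / E| ≤ 2 := by
    rw [abs_div, div_le_iff₀ (abs_pos.2 hE)]; linarith
  have hAE2 : |A / E| ≤ 2 := by
    rw [abs_div, div_le_iff₀ (abs_pos.2 hE)]; linarith
  have key := H T (by
      intro x y t x' y' t' h
      rw [hTR]
      apply hS
      have : -B * (A / E * (y' - t') - A / E * (y - t)) + A * (B / E * (1 - x - t) * t' -
          B / E * (1 - x' - t') * t) + E * (B / E * (1 - x - t) * (A / E * (y' - t')) -
          B / E * (1 - x' - t') * (A / E * (y - t))) + B * (t * (A / E * (y' - t')) -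
          t' * (A / E * (y - t))) = A * B / E * (t' - t - (x * y' - x' * y)) := by
        field_simp
        ring
      rw [this, h, mul_zero])
    (1 + R * |E / B|) (1 + R * |E / A|) M (by nlinarith) (by nlinarith) hM
    (by
      intro x hx
      rw [hTf]
      have : (B / E * (1 - x - 0), (0:ℝ), A / E * (0 - 0)) = (B / E * (1 - x), (0:ℝ), (0:ℝ)) := by
        ring_nf
      rw [this]
      apply h1
      rw [abs_mul]
      have h6 : |1 - x| ≤ 2 + R * |E / B| := by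
        calc |1 - x| ≤ |1| + |x| := abs_sub _ _
          _ ≤ 2 + R * |E / B| := by rw [abs_one]; linarith
      have h7 : |B / E| * |E / B| = 1 := by
        rw [← abs_mul]; field_simp; simp
      calc |B / E| * |1 - x| ≤ |B / E| * (2 + R * |E / B|) :=
            mul_le_mul_of_nonneg_left h6 (abs_nonneg _)
        _ = 2 * |B / E| + R * (|B / E| * |E / B|) := by ring
        _ ≤ 4 + R := by rw [h7]; linarith)
    (by
      intro y hy
      rw [hTf]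
      have : (B / E * (1 - 0 - 1), (1:ℝ), A / E * (y - 1)) = ((0:ℝ), (1:ℝ), A / E * (y - 1)) := by
        ring_nf
      rw [this]
      apply h2
      rw [abs_mul]
      have h6 : |y - 1| ≤ 2 + R * |E / A| := by
        calc |y - 1| ≤ |y| + |1| := abs_sub _ _
          _ ≤ 2 + R * |E / A| := by rw [abs_one]; linarith
      have h7 : |A / E| * |E / A| = 1 := by
        rw [← abs_mul]; field_simp; simp
      calc |A / E| * |y - 1| ≤ |A / E| * (2 + R * |E / A|) :=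
            mul_le_mul_of_nonneg_left h6 (abs_nonneg _)
        _ = 2 * |A / E| + R * (|A / E| * |E / A|) := by ring
        _ ≤ 4 + R := by rw [h7]; linarith)
    (by rw [hTf]; norm_num; exact h3)
    (by rw [hTf]; norm_num; exact h4)
    (by rw [hTd]; norm_num; exact h5)
    (1 + a * E / B) (1 + b * E / A)
    (by
      have : (1 + a * E / B) * (1 + b * E / A) = 1 + E / (A * B) * (a * A + b * B + a * b * E) := by
        field_simp; ring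
      rw [this, hab]; ring)
    (by
      calc |1 + a * E / B| ≤ |1| + |a * E / B| := abs_add_le _ _
        _ = 1 + |a| * |E / B| := by rw [abs_one, mul_div_assoc, abs_mul]
        _ ≤ _ := by nlinarith [abs_nonneg (E / B)])
    (by
      calc |1 + b * E / A| ≤ |1| + |b * E / A| := abs_add_le _ _
        _ = 1 + |b| * |E / A| := by rw [abs_one, mul_div_assoc, abs_mul]
        _ ≤ _ := by nlinarith [abs_nonneg (E / A)])
  rw [hTd] at key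
  have e1 : ((B / E * (1 - (1 + a * E / B) - 0), (0:ℝ), A / E * (0 - 0)) : ℝ × ℝ × ℝ) =
      (-a, 0, 0) := by
    ext
    · simp; field_simp
    · simp
    · simp
  have e2 : ((B / E * (1 - 0 - 1), (1:ℝ), A / E * (1 + b * E / A - 1)) : ℝ × ℝ × ℝ) =
      (0, 1, b) := by
    ext
    · simp
    · simp
    · simp; field_simp
  rw [e1, e2] at key
  exact key

lemma caseII1 (K : ℝ) (hK : 1 ≤ K) : ∃ C : ℝ, 1 ≤ C ∧
    ∀ (S : Sys K (ℝ × ℝ × ℝ)) (b e : ℝ), Rel 1 b e S.R → |b| ≤ 1 → |e| ≤ 1 / 2 → ∀ M, 0 ≤ M →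
    (∀ x, |x| ≤ 2 → S.f (x, 0, 0) ≤ M) → (∀ z, |z| ≤ 2 → S.f (0, 1, z) ≤ M) →
    -M ≤ S.f (0, 0, 0) → -M ≤ S.f (0, 1, 0) → S.d (0, 0, 0) (0, 1, 0) ≤ M →
    S.d (b / (1 + e), 0, 0) (0, 1, 1) ≤ C * M := by
  obtain ⟨C0, hC0, flat0⟩ := flat K hK 2
  obtain ⟨C2, hC2, three2⟩ := three K hK (1 / 5) (by norm_num) 1
  have hC0' : 0 < C0 := by linarith
  have hC2' : 0 < C2 := by linarith
  refine ⟨1 + C2 * (11 * C0 + 7), ?_, ?_⟩
  · have : 0 ≤ C2 * (11 * C0 + 7) := by positivity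
    linarith
  intro S b e hS hb he M hM h1 h2 h3 h4 h5
  have hb' := abs_le.1 hb
  have he' := abs_le.1 he
  have p1 : 0 < 1 + e := by linarith
  have p2 : 0 < 2 - e := by linarith
  have p3 : 0 < 3 + e := by linarith
  have p6 : 0 < 6 - e := by linarith
  have u1 := h1 0 (by norm_num)
  have u2 := h2 0 (by norm_num)
  have hR0 : S.R (0, 0, 0) (0, 1, 0) := hS _ _ _ _ _ _ (by norm_num)
  have fl := flat0 _ S (0, 0, 0) (0, 1, 0) M hR0 (abs_le.2 ⟨h3, u1⟩) (abs_le.2 ⟨h4, u2⟩) h5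
  have fr := fl 2 (by norm_num)
  rw [pt_mk] at fr
  norm_num at fr
  obtain ⟨fr1, fr2⟩ := fr
  rw [abs_le] at fr1 fr2
  -- s⁻
  have bx1 : |-b / (2 - e)| ≤ 2 := by
    rw [abs_div, abs_neg, abs_of_pos p2, div_le_iff₀ p2]; linarith
  have bx2 : |b / (1 + e)| ≤ 2 := by
    rw [abs_div, abs_of_pos p1, div_le_iff₀ p1]; linarith
  have sm : S.f (-b / (6 - e), 4 / (6 - e), -2 / (6 - e)) ≤ M := by
    have := S.conv_le (hS (-b / (2 - e)) 0 0 0 1 (-1 / 2) (by field_simp; ring))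
      (σ := 4 / (6 - e)) (M := M) (by positivity)
      (by rw [div_le_one p6]; linarith) (h1 _ bx1) (h2 _ (by norm_num [abs_div]))
    rw [pt_mk] at this
    convert this using 2
    ext
    · simp; field_simp; ring
    · simp
    · simp; field_simp; ring
  have hb0 : 0 ≤ M := hM
  have low1 := S.nn _ _ (hS 0 2 0 (b / (3 + e)) (2 / (3 + e)) (2 / (3 + e)) (by field_simp; ring))
  have low2 := S.nn _ _ (hS 0 2 0 (-b / (6 - e)) (4 / (6 - e)) (-2 / (6 - e))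
    (by field_simp; ring))
  have e1 : (3 + e) • (((b / (3 + e), 2 / (3 + e), 2 / (3 + e)) : ℝ × ℝ × ℝ) - (0, 2, 0)) +
      (6 - e) • (((-b / (6 - e), 4 / (6 - e), -2 / (6 - e)) : ℝ × ℝ × ℝ) - (0, 2, 0)) =
      (-12 : ℝ) • ((0, 1, 0) : ℝ × ℝ × ℝ) := by
    ext
    · simp; field_simp; ring
    · simp; field_simp; ring
    · simp; field_simp; ring
  have e1' := congrArg (S.l (0, 2, 0)) e1
  rw [map_add, map_smul, map_smul, map_smul, smul_eq_mul, smul_eq_mul, smul_eq_mul] at e1'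
  have ss : -((11 * C0 + 6) * M) ≤ S.f (b / (3 + e), 2 / (3 + e), 2 / (3 + e)) := by
    have n1 := mul_nonneg p3.le low1
    have n2 := mul_nonneg p6.le low2
    have n3 : (6 - e) * S.f (-b / (6 - e), 4 / (6 - e), -2 / (6 - e)) ≤ (6 - e) * M :=
      mul_le_mul_of_nonneg_left sm p6.le
    have n4 : -((21 * C0 + 13 / 2) * M) ≤
        (3 + e) * S.f (b / (3 + e), 2 / (3 + e), 2 / (3 + e)) := by nlinarith
    by_contra hcon
    push Not at hcon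
    have n5 : (3 + e) * S.f (b / (3 + e), 2 / (3 + e), 2 / (3 + e)) <
      (3 + e) * -((11 * C0 + 6) * M) := mul_lt_mul_of_pos_left hcon p3
    have hC0M : 0 ≤ C0 * M := by positivity
    nlinarith
  have s8 := (three2 _ S (b / (1 + e), 0, 0) (0, 1, 1) ((11 * C0 + 7) * M) (2 / (3 + e))
    (hS _ _ _ _ _ _ (by field_simp; ring)) ((h1 _ bx2).trans (by nlinarith))
    ((h2 _ (by norm_num)).trans (by nlinarith))
    (by rw [le_div_iff₀ p3]; linarith) (by rw [div_le_iff₀ p3]; linarith) (by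
      rw [pt_mk]
      refine le_trans ?_ (ss.trans (le_of_eq ?_))
      · linarith
      · congr 1
        ext
        · simp; field_simp; ring
        · simp
        · simp)
    (by positivity)).1
  nlinarith

lemma caseII (K : ℝ) (hK : 1 ≤ K) : ∃ C : ℝ, 1 ≤ C ∧
    ∀ (S : Sys K (ℝ × ℝ × ℝ)) (A B E : ℝ), Rel A B E S.R → A ≠ 0 → |B| ≤ |A| →
    2 * |E| ≤ |A| → ∀ M, 0 ≤ M →
    (∀ x, |x| ≤ 2 → S.f (x, 0, 0) ≤ M) → (∀ z, |z| ≤ 2 → S.f (0, 1, z) ≤ M) →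
    -M ≤ S.f (0, 0, 0) → -M ≤ S.f (0, 1, 0) → S.d (0, 0, 0) (0, 1, 0) ≤ M →
    S.d (B / (A + E), 0, 0) (0, 1, 1) ≤ C * M := by
  obtain ⟨C, hC, H⟩ := caseII1 K hK
  refine ⟨C, hC, ?_⟩
  intro S A B E hS hA hB hE M hM h1 h2 h3 h4 h5
  have hA' := abs_pos.2 hA
  have := H S (B / A) (E / A) (by
      intro x y z x' y' z' h
      apply hS
      have h6 : -B * (z' - z) + A * (x * y' - x' * y) + E * (x * z' - x' * z) +
        B * (y * z' - y' * z) = A * (-(B / A) * (z' - z) + 1 * (x * y' - x' * y) +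
          E / A * (x * z' - x' * z) + B / A * (y * z' - y' * z)) := by field_simp
      rw [h6, h, mul_zero])
    (by rw [abs_div, div_le_one hA']; exact hB)
    (by rw [abs_div, div_le_iff₀ hA']; linarith) M hM h1 h2 h3 h4 h5
  have e : B / A / (1 + E / A) = B / (A + E) := by
    field_simp
  rwa [e] at this

/-- the normalised system of a chain -/
noncomputable def Sys.nrm {K : ℝ} (S : Sys K (ℝ × ℝ × ℝ)) : Sys K (ℝ × ℝ × ℝ) :=
  S.sub (S.f (0, 0, 0)) ((S.f (0, 0, 0) - S.f (-1, 0, 0)) • LinearMap.fst ℝ ℝ (ℝ × ℝ) +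
    (S.f (0, 1, 0) - S.f (0, 0, 0)) • (LinearMap.fst ℝ ℝ ℝ).comp (LinearMap.snd ℝ ℝ (ℝ × ℝ)) +
    (S.f (0, 1, 1) - S.f (0, 1, 0)) • (LinearMap.snd ℝ ℝ ℝ).comp (LinearMap.snd ℝ ℝ (ℝ × ℝ)))

lemma nrm_d {K : ℝ} (S : Sys K (ℝ × ℝ × ℝ)) (p q : ℝ × ℝ × ℝ) : S.nrm.d p q = S.d p q :=
  S.sub_d _ _ _ _

lemma nrm_R {K : ℝ} (S : Sys K (ℝ × ℝ × ℝ)) : S.nrm.R = S.R := rfl

lemma nrm_bound (K : ℝ) (hK : 1 ≤ K) (R : ℝ) : ∃ C : ℝ, 1 ≤ C ∧
    ∀ (S : Sys K (ℝ × ℝ × ℝ)) (A B E : ℝ), Rel A B E S.R → ∀ s, 0 ≤ s →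
    S.d (-1, 0, 0) (0, 0, 0) ≤ s → S.d (0, 0, 0) (0, 1, 0) ≤ s → S.d (0, 1, 0) (0, 1, 1) ≤ s →
    (∀ x, |x| ≤ R → S.nrm.f (x, 0, 0) ≤ C * s) ∧ (∀ z, |z| ≤ R → S.nrm.f (0, 1, z) ≤ C * s) ∧
    -(C * s) ≤ S.nrm.f (0, 0, 0) ∧ -(C * s) ≤ S.nrm.f (0, 1, 0) ∧
    S.nrm.d (0, 0, 0) (0, 1, 0) ≤ C * s := by
  obtain ⟨C, hC, H⟩ := flat K hK (R + 1)
  refine ⟨C, hC, ?_⟩
  intro S A B E hS s hs h1 h2 h3
  have v0 : S.nrm.f (-1, 0, 0) = 0 := by simp [Sys.nrm, Sys.sub]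
  have v1 : S.nrm.f (0, 0, 0) = 0 := by simp [Sys.nrm, Sys.sub]
  have v2 : S.nrm.f (0, 1, 0) = 0 := by simp [Sys.nrm, Sys.sub]
  have v3 : S.nrm.f (0, 1, 1) = 0 := by simp [Sys.nrm, Sys.sub]
  have hR1 : S.nrm.R (-1, 0, 0) (0, 0, 0) := hS _ _ _ _ _ _ (by ring)
  have hR3 : S.nrm.R (0, 1, 0) (0, 1, 1) := hS _ _ _ _ _ _ (by ring)
  have f1 := H _ S.nrm (-1, 0, 0) (0, 0, 0) s hR1 (by rw [v0]; simpa) (by rw [v1]; simpa)
    (by rw [nrm_d]; exact h1)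
  have f3 := H _ S.nrm (0, 1, 0) (0, 1, 1) s hR3 (by rw [v2]; simpa) (by rw [v3]; simpa)
    (by rw [nrm_d]; exact h3)
  have hCs : 0 ≤ C * s := by positivity
  refine ⟨?_, ?_, ?_, ?_, ?_⟩
  · intro x hx
    have := (f1 (x + 1) (by
      calc |x + 1| ≤ |x| + |1| := abs_add_le _ _
        _ ≤ R + 1 := by rw [abs_one]; linarith)).1
    rw [pt_mk] at this
    have e : ((-1 + (x + 1) * (0 - -1), (0:ℝ) + (x + 1) * (0 - 0), (0:ℝ) + (x + 1) * (0 - 0)) :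
      ℝ × ℝ × ℝ) = (x, 0, 0) := by
      ext <;> simp
    rw [e] at this
    exact (le_abs_self _).trans this
  · intro x hx
    have := (f3 x (by linarith)).1
    rw [pt_mk] at this
    have e : (((0:ℝ) + x * (0 - 0), (1:ℝ) + x * (1 - 1), (0:ℝ) + x * (1 - 0)) :
      ℝ × ℝ × ℝ) = (0, 1, x) := by
      ext <;> simp
    rw [e] at this
    exact (le_abs_self _).trans this
  · rw [v1]; linarith
  · rw [v2]; linarith
  · rw [nrm_d]; nlinarith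

lemma chainI (K : ℝ) (hK : 1 ≤ K) (R : ℝ) (hR2 : 2 ≤ R) : ∃ C : ℝ, 1 ≤ C ∧
    ∀ (S : Sys K (ℝ × ℝ × ℝ)) (A B E : ℝ), Rel A B E S.R →
    A ≠ 0 → B ≠ 0 → E ≠ 0 → |A| ≤ 2 * |E| → |B| ≤ 2 * |E| → ∀ s, 0 ≤ s →
    S.d (-1, 0, 0) (0, 0, 0) ≤ s → S.d (0, 0, 0) (0, 1, 0) ≤ s → S.d (0, 1, 0) (0, 1, 1) ≤ s →
    ∀ a b, |a| ≤ R → |b| ≤ R → a * A + b * B + a * b * E = 0 →
    S.d (-a, 0, 0) (0, 1, b) ≤ C * s := by
  obtain ⟨C1, hC1, H1⟩ := nrm_bound K hK (4 + R)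
  obtain ⟨C2, hC2, H2⟩ := caseI K hK R hR2
  refine ⟨C2 * C1, by nlinarith, ?_⟩
  intro S A B E hS hA hB hE hAE hBE s hs h1 h2 h3 a b ha hb hab
  obtain ⟨q1, q2, q3, q4, q5⟩ := H1 S A B E hS s hs h1 h2 h3
  have := H2 S.nrm A B E hS hA hB hE hAE hBE (C1 * s) (by positivity) q1 q2 q3 q4 q5 a b ha hb hab
  rw [nrm_d] at this
  rw [mul_assoc]
  exact this

lemma chainII (K : ℝ) (hK : 1 ≤ K) : ∃ C : ℝ, 1 ≤ C ∧
    ∀ (S : Sys K (ℝ × ℝ × ℝ)) (A B E : ℝ), Rel A B E S.R →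
    A ≠ 0 → |B| ≤ |A| → 2 * |E| ≤ |A| → ∀ s, 0 ≤ s →
    S.d (-1, 0, 0) (0, 0, 0) ≤ s → S.d (0, 0, 0) (0, 1, 0) ≤ s → S.d (0, 1, 0) (0, 1, 1) ≤ s →
    S.d (B / (A + E), 0, 0) (0, 1, 1) ≤ C * s := by
  obtain ⟨C1, hC1, H1⟩ := nrm_bound K hK 2
  obtain ⟨C2, hC2, H2⟩ := caseII K hK
  refine ⟨C2 * C1, by nlinarith, ?_⟩
  intro S A B E hS hA hB hE s hs h1 h2 h3
  obtain ⟨q1, q2, q3, q4, q5⟩ := H1 S A B E hS s hs h1 h2 h3
  have := H2 S.nrm A B E hS hA hB hE (C1 * s) (by positivity) q1 q2 q3 q4 q5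
  rw [nrm_d] at this
  rw [mul_assoc]
  exact this

end Pool.Agent.helper23.HE
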