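import Pool.Agent.helper23.HE.OneD

/-! Abstract engulfing systems: a function `f` with a selection of slopes `l` on a real vector
space, satisfying the subgradient inequality and the engulfing inequality along a related relation
(horizontally related points). -/

namespace Pool.Agent.helper23.HE

/-- abstract engulfing system with constant `K` -/
structure Sys (K : ℝ) (V : Type*) [AddCommGroup V] [Module ℝ V] where
  R : V → V → Prop
  refl : ∀ a, R a a
  symm : ∀ a b, R a b → R b a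
  lin : ∀ a b c (τ : ℝ), R a b → R a c → R a (b + τ • (c - b))
  f : V → ℝ
  l : V → V →ₗ[ℝ] ℝ
  nn : ∀ a b, R a b → 0 ≤ f b - f a - l a (b - a)
  eng : ∀ a b, R a b → f a - f b - l b (a - b) ≤ K * (f b - f a - l a (b - a))

namespace Sys

variable {K : ℝ} {V : Type*} [AddCommGroup V] [Module ℝ V] (S : Sys K V)

/-- gap -/
def d (a b : V) : ℝ := S.f b - S.f a - S.l a (b - a)

/-- point on the line through `a` and `b` -/
def pt (a b : V) (τ : ℝ) : V := a + τ • (b - a)

@[simp] lemma pt_zero (a b : V) : pt a b 0 = a := by simp [pt]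
@[simp] lemma pt_one (a b : V) : pt a b 1 = b := by simp [pt]

lemma pt_sub (a b : V) (σ τ : ℝ) : pt a b τ - pt a b σ = (τ - σ) • (b - a) := by
  simp only [pt, sub_smul]; abel

lemma d_nonneg {a b : V} (h : S.R a b) : 0 ≤ S.d a b := S.nn a b h

lemma d_symm {a b : V} (h : S.R a b) : S.d b a ≤ K * S.d a b := S.eng a b h

lemma R_pt {a b : V} (h : S.R a b) (σ τ : ℝ) : S.R (pt a b σ) (pt a b τ) := by
  have h1 : ∀ τ, S.R a (pt a b τ) := fun τ => S.lin a a b τ (S.refl a) h
  have h2 : ∀ τ, S.R b (pt a b τ) := fun τ => S.lin b a b τ (S.symm _ _ h) (S.refl b)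
  exact S.lin _ a b τ (S.symm _ _ (h1 σ)) (S.symm _ _ (h2 σ))

lemma E1_line {a b : V} (h : S.R a b) :
    E1 K (fun τ => S.f (pt a b τ)) (fun τ => S.l (pt a b τ) (b - a)) := by
  constructor
  · intro x y
    have := S.nn _ _ (S.R_pt h x y)
    rw [pt_sub, map_smul, smul_eq_mul] at this
    simp only; linarith
  · intro x y
    have := S.eng _ _ (S.R_pt h x y)
    rw [pt_sub, pt_sub, map_smul, map_smul, smul_eq_mul, smul_eq_mul] at this
    simp only; linarith

lemma gap_line {a b : V} (x y : ℝ) :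
    gap (fun τ => S.f (pt a b τ)) (fun τ => S.l (pt a b τ) (b - a)) x y
      = S.d (pt a b x) (pt a b y) := by
  simp only [gap, d, pt_sub, map_smul, smul_eq_mul]; ring

/-- convexity along lines of related points -/
lemma conv {a b : V} (h : S.R a b) {σ : ℝ} (h0 : 0 ≤ σ) (h1 : σ ≤ 1) :
    S.f (pt a b σ) ≤ (1 - σ) * S.f a + σ * S.f b := by
  have hE := S.E1_line h
  have e1 := hE.1 σ 0
  have e2 := hE.1 σ 1
  simp only [pt_zero, pt_one] at e1 e2
  nlinarith

lemma conv_le {a b : V} (h : S.R a b) {σ M : ℝ} (h0 : 0 ≤ σ) (h1 : σ ≤ 1)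
    (ha : S.f a ≤ M) (hb : S.f b ≤ M) : S.f (pt a b σ) ≤ M := by
  have := S.conv h h0 h1
  nlinarith

end Sys

/-- Doubling along lines. -/
lemma line (K : ℝ) (hK : 1 ≤ K) (R : ℝ) : ∃ C : ℝ, 1 ≤ C ∧
    ∀ (V : Type) [AddCommGroup V] [Module ℝ V] (S : Sys K V) (a b : V), S.R a b →
    ∀ σ τ : ℝ, |σ| ≤ R → |τ| ≤ R → S.d (Sys.pt a b σ) (Sys.pt a b τ) ≤ C * S.d a b := by
  obtain ⟨C, hC, H⟩ := dbl2 K hK R
  refine ⟨C, hC, ?_⟩
  intro V _ _ S a b h σ τ hσ hτ
  have := H _ _ (S.E1_line h) σ τ hσ hτ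
  rw [S.gap_line, S.gap_line] at this
  simpa using this

/-- flat line: values and slopes -/
lemma flat (K : ℝ) (hK : 1 ≤ K) (R : ℝ) : ∃ C : ℝ, 1 ≤ C ∧
    ∀ (V : Type) [AddCommGroup V] [Module ℝ V] (S : Sys K V) (a b : V) (M : ℝ), S.R a b →
    |S.f a| ≤ M → |S.f b| ≤ M → S.d a b ≤ M →
    ∀ τ : ℝ, |τ| ≤ R → |S.f (Sys.pt a b τ)| ≤ C * M ∧ |S.l (Sys.pt a b τ) (b - a)| ≤ C * M := by
  rcases lt_or_ge R 0 with hR | hR
  · exact ⟨1, le_rfl, fun V _ _ S a b M _ _ _ _ τ hτ => absurd (abs_nonneg τ) (by linarith)⟩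
  obtain ⟨C, hC, H⟩ := line K hK (R + 1)
  -- bound of values by `B M`
  set B := 1 + 3 * (R + 1) + C with hB
  have hB1 : 1 ≤ B := by rw [hB]; nlinarith
  have key : ∀ (V : Type) [AddCommGroup V] [Module ℝ V] (S : Sys K V) (a b : V) (M : ℝ),
      S.R a b → |S.f a| ≤ M → |S.f b| ≤ M → S.d a b ≤ M →
      ∀ τ : ℝ, |τ| ≤ R + 1 → |S.f (Sys.pt a b τ)| ≤ B * M := by
    intro V _ _ S a b M h ha hb hd τ hτ
    have hM : 0 ≤ M := (abs_nonneg _).trans ha
    have h1 := H V S a b h 0 τ (by simp; linarith) hτ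
    have hd0 := S.d_nonneg h
    have h2 := S.nn _ _ (S.R_pt h 0 τ)
    have h3 : S.d (Sys.pt a b 0) (Sys.pt a b τ) = S.f (Sys.pt a b τ) - S.f a - τ * S.l a (b - a) := by
      simp [Sys.d, Sys.pt]
    have h4 : S.d a b = S.f b - S.f a - S.l a (b - a) := rfl
    have h5 : 0 ≤ S.d (Sys.pt a b 0) (Sys.pt a b τ) := S.d_nonneg (S.R_pt h 0 τ)
    rw [h3] at h1 h5
    rw [abs_le] at ha hb
    have hsl : |S.l a (b - a)| ≤ 3 * M := by rw [abs_le]; constructor <;> linarith
    have hts : |τ * S.l a (b - a)| ≤ (R + 1) * (3 * M) := by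
      rw [abs_mul]; exact mul_le_mul hτ hsl (abs_nonneg _) (by linarith)
    have hCM : C * S.d a b ≤ C * M := mul_le_mul_of_nonneg_left hd (by linarith)
    rw [abs_le] at hts ⊢
    rw [hB]
    constructor
    · nlinarith
    · nlinarith
  refine ⟨2 * B, by linarith, ?_⟩
  intro V _ _ S a b M h ha hb hd τ hτ
  have hM : 0 ≤ M := (abs_nonneg _).trans ha
  have k0 := key V S a b M h ha hb hd τ (by linarith)
  have k1 := key V S a b M h ha hb hd (τ + 1) (by
    calc |τ + 1| ≤ |τ| + |1| := abs_add_le _ _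
      _ ≤ R + 1 := by simp; linarith)
  have k2 := key V S a b M h ha hb hd (τ - 1) (by
    calc |τ - 1| ≤ |τ| + |1| := abs_sub _ _
      _ ≤ R + 1 := by simp; linarith)
  have e1 := (S.E1_line h).1 τ (τ + 1)
  have e2 := (S.E1_line h).1 τ (τ - 1)
  simp only at e1 e2
  rw [abs_le] at k0 k1 k2
  have hBM : 0 ≤ B * M := mul_nonneg (by linarith) hM
  refine ⟨?_, ?_⟩
  · rw [abs_le]; constructor <;> linarith
  · rw [abs_le]; constructor <;> nlinarith

/-- three point lemma -/
lemma three (K : ℝ) (hK : 1 ≤ K) (c : ℝ) (hc : 0 < c) (R : ℝ) : ∃ C : ℝ, 1 ≤ C ∧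
    ∀ (V : Type) [AddCommGroup V] [Module ℝ V] (S : Sys K V) (a b : V) (M σ : ℝ), S.R a b →
    S.f a ≤ M → S.f b ≤ M → c ≤ σ → σ ≤ 1 - c → -M ≤ S.f (Sys.pt a b σ) → 0 ≤ M →
    S.d a b ≤ C * M ∧ ∀ τ : ℝ, |τ| ≤ R → S.f (Sys.pt a b τ) ≤ C * M := by
  obtain ⟨C, hC, H⟩ := dbl K hK ((|R| + 2) / c)
  obtain ⟨C', hC', H'⟩ := dbl2 K hK ((|R| + 2) / c)
  refine ⟨1 + 2 / c * (|R| + 2) + C' * C * (2 / c) + C * (2 / c), ?_, ?_⟩
  · have : 0 ≤ 2 / c * (|R| + 2) := by positivity
    have : 0 ≤ C' * C * (2 / c) := by positivity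
    have : 0 ≤ C * (2 / c) := by positivity
    linarith
  intro V _ _ S a b M σ h ha hb h1 h2 h3 hM
  set F : ℝ → ℝ := fun τ => S.f (Sys.pt a b τ) with hF
  set G : ℝ → ℝ := fun τ => S.l (Sys.pt a b τ) (b - a) with hG
  have hE : E1 K F G := S.E1_line h
  have hF0 : F 0 = S.f a := by simp [hF]
  have hF1 : F 1 = S.f b := by simp [hF]
  have hσ0 : 0 < σ := by linarith
  have hσ1 : 0 < 1 - σ := by linarith
  -- slope at σ
  have s1 := hE.1 σ 0
  have s2 := hE.1 σ 1
  have hFσ : -M ≤ F σ := h3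
  have hMc : 0 ≤ 2 * M / c := by positivity
  have hGup : G σ ≤ 2 * M / c := by
    rw [le_div_iff₀ hc]
    rcases le_total (G σ) 0 with hg | hg
    · nlinarith
    · nlinarith
  have hGlo : -(2 * M / c) ≤ G σ := by
    rw [neg_le, le_div_iff₀ hc]
    rcases le_total (G σ) 0 with hg | hg
    · nlinarith
    · nlinarith
  -- gap at σ towards 0
  have g0 : gap F G σ 0 ≤ 2 * M / c := by
    rw [le_div_iff₀ hc]
    unfold gap at *
    have : (1 - σ) * (F 0 - F σ - G σ * (0 - σ)) + σ * (F 1 - F σ - G σ * (1 - σ)) ≤ 2 * M := by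
      nlinarith
    nlinarith
  have g0n : 0 ≤ gap F G σ 0 := hE.1 σ 0
  -- base σ, direction towards 0
  have hR' : ∀ τ, |τ| ≤ |R| + 1 → |(σ - τ) / σ| ≤ (|R| + 2) / c := by
    intro τ hτ
    rw [abs_div, abs_of_pos hσ0]
    have : |σ - τ| ≤ |R| + 2 := by
      calc |σ - τ| ≤ |σ| + |τ| := abs_sub _ _
        _ ≤ 1 + (|R| + 1) := by rw [abs_of_pos hσ0]; linarith
        _ = |R| + 2 := by ring
    exact div_le_div₀ (by positivity) this hc h1
  have hgap : ∀ τ, |τ| ≤ |R| + 1 → gap F G σ τ ≤ C * (2 * M / c) := by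
    intro τ hτ
    have := H F G hE σ (-σ) ((σ - τ) / σ) (hR' τ hτ)
    have e : σ + (σ - τ) / σ * -σ = τ := by field_simp; ring
    rw [e] at this
    have e2 : σ + -σ = 0 := by ring
    rw [e2] at this
    exact this.trans (mul_le_mul_of_nonneg_left g0 (by linarith))
  have hFσM : F σ ≤ M := S.conv_le h hσ0.le (by linarith) ha hb
  constructor
  · -- gap 0 1
    have n1 := hE.norm σ (-σ)
    have := H' _ _ n1 1 ((σ - 1) / σ) (by
        have := hR' 0 (by simp; positivity); simpa [hσ0.ne'] using this)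
      (hR' 1 (by simp))
    have e3 : gap (fun τ => F (σ + τ * -σ) - F σ - G σ * (τ * -σ))
        (fun τ => -σ * G (σ + τ * -σ) - -σ * G σ) 1 ((σ - 1) / σ) = gap F G 0 1 := by
      unfold gap
      simp only
      have e : σ + (σ - 1) / σ * -σ = 1 := by field_simp; ring
      have e' : σ + 1 * -σ = 0 := by ring
      rw [e, e']
      field_simp
      ring
    have e4 : gap (fun τ => F (σ + τ * -σ) - F σ - G σ * (τ * -σ))
        (fun τ => -σ * G (σ + τ * -σ) - -σ * G σ) 0 1 = gap F G σ 0 := by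
      unfold gap
      simp only
      have e' : σ + 1 * -σ = 0 := by ring
      have e'' : σ + 0 * -σ = σ := by ring
      rw [e', e'']
      ring
    rw [e3, e4] at this
    have e5 : gap F G 0 1 = S.d a b := by
      rw [hF, hG, S.gap_line]; simp
    rw [← e5]
    calc gap F G 0 1 ≤ C' * gap F G σ 0 := this
      _ ≤ C' * (2 * M / c) := mul_le_mul_of_nonneg_left g0 (by linarith)
      _ = C' * 1 * (2 / c) * M := by ring
      _ ≤ C' * C * (2 / c) * M := by
        apply mul_le_mul_of_nonneg_right _ hM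
        apply mul_le_mul_of_nonneg_right _ (by positivity)
        exact mul_le_mul_of_nonneg_left hC (by linarith)
      _ ≤ (1 + 2 / c * (|R| + 2) + C' * C * (2 / c) + C * (2 / c)) * M := by
        apply mul_le_mul_of_nonneg_right _ hM
        have : 0 ≤ 2 / c * (|R| + 2) := by positivity
        have : 0 ≤ C * (2 / c) := by positivity
        linarith
  · intro τ hτ
    have hτ' : |τ| ≤ |R| + 1 := by
      have := le_abs_self R; linarith
    have h5 := hgap τ hτ'
    have h6 : F τ = F σ + G σ * (τ - σ) + gap F G σ τ := by unfold gap; ring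
    have h7 : G σ * (τ - σ) ≤ 2 * M / c * (|R| + 2) := by
      calc G σ * (τ - σ) ≤ |G σ * (τ - σ)| := le_abs_self _
        _ = |G σ| * |τ - σ| := abs_mul _ _
        _ ≤ 2 * M / c * (|R| + 2) := by
          apply mul_le_mul _ _ (abs_nonneg _) hMc
          · rw [abs_le]; exact ⟨hGlo, hGup⟩
          · calc |τ - σ| ≤ |τ| + |σ| := abs_sub _ _
              _ ≤ (|R| + 1) + 1 := by rw [abs_of_pos hσ0]; linarith
              _ = |R| + 2 := by ring
    have h8 : F τ ≤ M + 2 * M / c * (|R| + 2) + C * (2 * M / c) := by rw [h6]; linarith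
    calc S.f (Sys.pt a b τ) = F τ := rfl
      _ ≤ _ := h8
      _ = (1 + 2 / c * (|R| + 2) + 0 + C * (2 / c)) * M := by ring
      _ ≤ _ := by
        apply mul_le_mul_of_nonneg_right _ hM
        have : 0 ≤ C' * C * (2 / c) := by positivity
        linarith

/-- isotropic triple -/
lemma iso (K : ℝ) (hK : 1 ≤ K) : ∃ C : ℝ, 1 ≤ C ∧
    ∀ (V : Type) [AddCommGroup V] [Module ℝ V] (S : Sys K V) (a b c : V), S.R a b → S.R b c →
    S.R a c → S.d a c ≤ C * (S.d a b + S.d b c) := by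
  obtain ⟨C, hC, H⟩ := line K hK 1
  refine ⟨2 + C, by linarith, ?_⟩
  intro V _ _ S a b c hab hbc hac
  set c' := Sys.pt b c (-1) with hc'
  have hbc' : S.R b c' := by
    have := S.R_pt hbc 0 (-1); simpa using this
  have hac' : S.R a c' := S.lin a b c (-1) hab hac
  have h1 := H V S b c hbc 0 (-1) (by simp) (by simp)
  rw [Sys.pt_zero, ← hc'] at h1
  have h2 := S.nn a c' hac'
  have e1 : c' - a = (b - a) - (c - b) := by simp [hc', Sys.pt]; abel
  have e2 : c' - b = -(c - b) := by simp [hc', Sys.pt]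
  rw [e1, map_sub] at h2
  have h3 : S.d b c' = S.f c' - S.f b + S.l b (c - b) := by
    unfold Sys.d; rw [e2, map_neg]; ring
  have h4 : S.d a c = S.f c - S.f a - (S.l a (b - a) + S.l a (c - b)) := by
    unfold Sys.d; rw [← map_add]; congr 2; abel
  have h5 : S.d b c = S.f c - S.f b - S.l b (c - b) := rfl
  have h6 : S.d a b = S.f b - S.f a - S.l a (b - a) := rfl
  have n1 := S.d_nonneg hab
  have n2 := S.d_nonneg hbc
  have h7 : S.l b (c - b) - S.l a (c - b) ≤ S.d a b + S.d b c' := by linarith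
  have h8 : S.d a c = S.d a b + S.d b c + (S.l b (c - b) - S.l a (c - b)) := by linarith
  nlinarith

/-- pull back to a three dimensional slice -/
def Sys.slice {K : ℝ} {V : Type*} [AddCommGroup V] [Module ℝ V] (S : Sys K V) (a u v w : V) :
    Sys K (ℝ × ℝ × ℝ) where
  R p q := S.R (a + p.1 • u + p.2.1 • v + p.2.2 • w) (a + q.1 • u + q.2.1 • v + q.2.2 • w)
  refl p := S.refl _
  symm p q h := S.symm _ _ h
  lin p q r τ h1 h2 := by
    have := S.lin _ _ _ τ h1 h2
    convert this using 1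
    simp only [Prod.fst_add, Prod.snd_add, Prod.smul_fst, Prod.smul_snd, Prod.fst_sub,
      Prod.snd_sub, smul_eq_mul, add_smul, mul_smul, sub_smul, smul_add, smul_sub]
    abel
  f p := S.f (a + p.1 • u + p.2.1 • v + p.2.2 • w)
  l p := (S.l (a + p.1 • u + p.2.1 • v + p.2.2 • w)).comp
    ((LinearMap.fst ℝ ℝ (ℝ × ℝ)).smulRight u +
      ((LinearMap.fst ℝ ℝ ℝ).comp (LinearMap.snd ℝ ℝ (ℝ × ℝ))).smulRight v +
      ((LinearMap.snd ℝ ℝ ℝ).comp (LinearMap.snd ℝ ℝ (ℝ × ℝ))).smulRight w)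
  nn p q h := by
    have := S.nn _ _ h
    convert this using 3
    simp only [LinearMap.comp_apply, LinearMap.add_apply, LinearMap.smulRight_apply,
      LinearMap.fst_apply, LinearMap.snd_apply, Prod.fst_sub, Prod.snd_sub, sub_smul]
    congr 1
    abel
  eng p q h := by
    have := S.eng _ _ h
    convert this using 3
    · simp only [LinearMap.comp_apply, LinearMap.add_apply, LinearMap.smulRight_apply,
        LinearMap.fst_apply, LinearMap.snd_apply, Prod.fst_sub, Prod.snd_sub, sub_smul]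
      congr 1
      abel
    · simp only [LinearMap.comp_apply, LinearMap.add_apply, LinearMap.smulRight_apply,
        LinearMap.fst_apply, LinearMap.snd_apply, Prod.fst_sub, Prod.snd_sub, sub_smul]
      congr 1
      abel_nf

/-- subtract an affine function -/
def Sys.sub {K : ℝ} {V : Type*} [AddCommGroup V] [Module ℝ V] (S : Sys K V) (k : ℝ)
    (g : V →ₗ[ℝ] ℝ) : Sys K V where
  R := S.R
  refl := S.refl
  symm := S.symm
  lin := S.lin
  f p := S.f p - k - g p
  l p := S.l p - g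
  nn p q h := by
    have := S.nn _ _ h
    simp only [LinearMap.sub_apply, map_sub] at this ⊢
    linarith
  eng p q h := by
    have := S.eng _ _ h
    simp only [LinearMap.sub_apply, map_sub] at this ⊢
    convert this using 1
    · ring
    · ring

end Pool.Agent.helper23.HE
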