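import Pool.Agent.helper23.HE.Bdd2

/-! H-convex functions are upper semicontinuous. -/

namespace Pool.Agent.helper23.HE

open Set Filter Topology

variable {n : ℕ}

@[simp] lemma hexp_zero : hexp (0 : Layer n) = 0 := rfl

lemma usc_step {φ : Heis n → ℝ} (h : HConvex φ) (i : Fin n) (ζ : Heis n) {X : Type*}
    {l : Filter X} {g : X → Heis n} {v : X → Layer n} (hg : Tendsto g l (𝓝 ζ))
    (hv : Tendsto v l (𝓝 0)) (hφ : ∀ ε > 0, ∀ᶠ x in l, φ (g x) ≤ φ ζ + ε) :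
    Tendsto (fun x => hmul (g x) (hexp (v x))) l (𝓝 ζ) ∧
    ∀ ε > 0, ∀ᶠ x in l, φ (hmul (g x) (hexp (v x))) ≤ φ ζ + ε := by
  have key : ∀ c : ℝ, Tendsto (fun x => hmul (g x) (hexp (c • v x))) l (𝓝 ζ) := by
    intro c
    have hcont : Continuous (fun p : Heis n × Layer n => hmul p.1 (hexp (c • p.2))) :=
      hmul_cont continuous_fst (hexp_cont (continuous_snd.const_smul c))
    have h1 := hcont.tendsto (ζ, (0 : Layer n))
    simp only [smul_zero, hexp_zero, mul_zero'] at h1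
    exact h1.comp (hg.prodMk_nhds hv)
  refine ⟨by simpa using key 1, ?_⟩
  intro ε hε
  obtain ⟨M, hM⟩ := loc_bdd h i ζ
  have hMζ : φ ζ ≤ M := hM.self_of_nhds
  set τ := ε / (2 * (M - φ ζ) + ε) with hτ
  have hden : 0 < 2 * (M - φ ζ) + ε := by linarith
  have hτ0 : 0 < τ := by positivity
  have hτ1 : τ ≤ 1 := by rw [hτ, div_le_one hden]; linarith
  have hτM : τ * (M - φ ζ) ≤ ε / 2 := by
    rw [hτ, div_mul_eq_mul_div, div_le_iff₀ hden]; nlinarith
  filter_upwards [(key τ⁻¹).eventually hM, hφ (ε / 2) (by linarith)] with x h1 h2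
  have := (h (g x) (τ⁻¹ • v x)).2 (mem_univ (0:ℝ)) (mem_univ (1:ℝ))
    (by linarith : 0 ≤ 1 - τ) hτ0.le (by ring)
  simp only [smul_eq_mul, mul_zero, mul_one, zero_add, zero_mul, one_mul, zero_smul, hexp_zero,
    mul_zero', smul_smul, mul_inv_cancel₀ hτ0.ne', one_smul] at this
  nlinarith

lemma comm_path (i : Fin n) (ζ ξ : Heis n) (w : Heis n) (hw : w = hmul (hinv ζ) ξ) (r s : ℝ)
    (hrs : -4 * r * s = w.2.2) :
    hmul (hmul (hmul (hmul (hmul ζ (hexp (w.1, w.2.1))) (hexp (r • Pi.single i 1, 0)))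
      (hexp (0, s • Pi.single i 1))) (hexp (-(r • Pi.single i 1), 0)))
      (hexp (0, -(s • Pi.single i 1))) = ξ := by
  have h1 : ξ = hmul ζ w := by rw [hw, mul_hinv]
  rw [h1]
  simp only [hmul_assoc]
  congr 1
  obtain ⟨a, b, c⟩ := w
  simp only at hrs
  simp only [hmul, hexp]
  ext
  · simp
  · simp
  · simp only [add_zero, zero_add, dotProduct_zero, zero_dotProduct, sub_zero, zero_sub, mul_zero,
      dp_add, dp_add', neg_dotProduct, dotProduct_neg, smul_dotProduct, dotProduct_smul,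
      single_dotProduct, dotProduct_single, Pi.single_eq_same, smul_eq_mul, Pi.zero_apply]
    rw [← hrs]
    simp
    ring

lemma usc {φ : Heis n → ℝ} (h : HConvex φ) (i : Fin n) (ζ : Heis n) (ε : ℝ) (hε : 0 < ε) :
    ∀ᶠ ξ in 𝓝 ζ, φ ξ ≤ φ ζ + ε := by
  set w : Heis n → Heis n := fun ξ => hmul (hinv ζ) ξ with hw
  have hwc : Continuous w := hmul_cont continuous_const continuous_id
  have hw0 : w ζ = 0 := hinv_self ζ
  have hwt : Tendsto w (𝓝 ζ) (𝓝 0) := by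
    have := hwc.tendsto ζ; rwa [hw0] at this
  have ht1 : Tendsto (fun ξ => ((w ξ).1, (w ξ).2.1)) (𝓝 ζ) (𝓝 (0 : Layer n)) := by
    have hc : Continuous (fun ξ => ((w ξ).1, (w ξ).2.1)) := hwc.fst.prodMk hwc.snd.fst
    have := hc.tendsto ζ
    rw [hw0] at this
    exact this
  set r : Heis n → ℝ := fun ξ => √|(w ξ).2.2| / 2 with hr
  set s : Heis n → ℝ := fun ξ => -((SignType.sign (w ξ).2.2 : ℝ) * √|(w ξ).2.2| / 2) with hs
  have htr : Tendsto r (𝓝 ζ) (𝓝 0) := by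
    have hc : Continuous r := by
      rw [hr]; exact (hwc.snd.snd.abs.sqrt).div_const 2
    have := hc.tendsto ζ
    have h0 : r ζ = 0 := by simp [hr, hw0]
    rwa [h0] at this
  have hts : Tendsto s (𝓝 ζ) (𝓝 0) := by
    rw [tendsto_zero_iff_abs_tendsto_zero]
    have hb : ∀ ξ, |s ξ| ≤ r ξ := by
      intro ξ
      simp only [hs, hr, abs_neg, abs_div, abs_mul, abs_two]
      have h1 : |((SignType.sign (w ξ).2.2 : SignType) : ℝ)| ≤ 1 := by
        rcases lt_trichotomy (w ξ).2.2 0 with h | h | h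
        · simp [sign_neg h]
        · simp [h]
        · simp [sign_pos h]
      have h2 : abs (√|(w ξ).2.2|) = √|(w ξ).2.2| := abs_of_nonneg (Real.sqrt_nonneg _)
      rw [h2]
      have := Real.sqrt_nonneg |(w ξ).2.2|
      nlinarith
    exact squeeze_zero (fun ξ => abs_nonneg _) hb htr
  have hrs : ∀ ξ, -4 * r ξ * s ξ = (w ξ).2.2 := by
    intro ξ
    simp only [hr, hs]
    have h1 : √|(w ξ).2.2| * √|(w ξ).2.2| = |(w ξ).2.2| := Real.mul_self_sqrt (abs_nonneg _)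
    have h2 : ((SignType.sign (w ξ).2.2 : SignType) : ℝ) * |(w ξ).2.2| = (w ξ).2.2 :=
      sign_mul_abs _
    have h3 : -4 * (√|(w ξ).2.2| / 2) * -(((SignType.sign (w ξ).2.2 : SignType) : ℝ) *
      √|(w ξ).2.2| / 2) = ((SignType.sign (w ξ).2.2 : SignType) : ℝ) *
        (√|(w ξ).2.2| * √|(w ξ).2.2|) := by ring
    rw [h3, h1, h2]
  have tsm : ∀ f : Heis n → ℝ, Tendsto f (𝓝 ζ) (𝓝 0) → Tendsto (fun ξ => f ξ •
      (Pi.single i 1 : Fin n → ℝ)) (𝓝 ζ) (𝓝 0) := by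
    intro f hf
    have := hf.smul_const (Pi.single i 1 : Fin n → ℝ)
    rwa [zero_smul] at this
  have tr := tsm r htr
  have ts := tsm s hts
  have tr' := tr.neg
  have ts' := ts.neg
  rw [neg_zero] at tr' ts'
  have z1 : ∀ f : Heis n → (Fin n → ℝ), Tendsto f (𝓝 ζ) (𝓝 0) →
      Tendsto (fun ξ => ((f ξ, 0) : Layer n)) (𝓝 ζ) (𝓝 0) := by
    intro f hf
    exact hf.prodMk_nhds (tendsto_const_nhds (x := (0 : Fin n → ℝ)))
  have z2 : ∀ f : Heis n → (Fin n → ℝ), Tendsto f (𝓝 ζ) (𝓝 0) →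
      Tendsto (fun ξ => ((0, f ξ) : Layer n)) (𝓝 ζ) (𝓝 0) := by
    intro f hf
    exact (tendsto_const_nhds (x := (0 : Fin n → ℝ))).prodMk_nhds hf
  have u0 : Tendsto (fun _ : Heis n => ζ) (𝓝 ζ) (𝓝 ζ) := tendsto_const_nhds
  obtain ⟨a1, b1⟩ := usc_step h i ζ u0 ht1 (fun ε hε => Eventually.of_forall fun x => by linarith)
  obtain ⟨a2, b2⟩ := usc_step h i ζ a1 (v := fun ξ => (r ξ • Pi.single i 1, 0))
    (z1 _ tr) b1
  obtain ⟨a3, b3⟩ := usc_step h i ζ a2 (v := fun ξ => (0, s ξ • Pi.single i 1))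
    (z2 _ ts) b2
  obtain ⟨a4, b4⟩ := usc_step h i ζ a3 (v := fun ξ => (-(r ξ • Pi.single i 1), 0))
    (z1 _ tr') b3
  obtain ⟨a5, b5⟩ := usc_step h i ζ a4 (v := fun ξ => (0, -(s ξ • Pi.single i 1)))
    (z2 _ ts') b4
  filter_upwards [b5 ε hε] with ξ hξ
  rwa [comm_path i ζ ξ (w ξ) rfl (r ξ) (s ξ) (hrs ξ)] at hξ

end Pool.Agent.helper23.HE
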